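import Pool.Agent.MVK.Stmts
import Pool.Agent.Helper40_MVD.FCT

/-!
Row FCT of block K (copy of the last theorem of Helper40_MVD/FCT, `Iso2` is not used there).
-/

namespace Pool.Agent.MVK.H20

open Pool.Agent.Helper14_MV Pool.Agent.Helper2_MV Pool.Agent.MVD Pool.Agent.MVD.H40

theorem fct : Pool.Agent.MVK.FctStmt := by
  intro β _ _ P Q m hm _ hH _ g L hSL
  obtain ⟨hL, hI⟩ := hSL
  have hL3 : ∀ c ∈ L, c % 3 ≠ 2 := by
    intro c hc
    rcases mem_perm hL hc with ⟨l', _, rfl⟩ | ⟨e, he, k', hk', rfl⟩ <;> omega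
  have hA : ∀ j : Fin 4, ∀ k, (k = j.val ∨ k = j.val + 1) → ∀ e < m,
      Btw (3 * (g j).val) (3 * (5 * e + k) + 1) L := by
    intro j k hk
    have hj := j.isLt
    exact fct_a hH hL3 ((hI j k (by omega)).2 hk)
  refine ⟨hA, ?_⟩
  intro j k hk5 hk
  by_contra hcon
  push Not at hcon
  obtain ⟨j2, hj2⟩ : ∃ j2 : Fin 4, k = j2.val ∨ k = j2.val + 1 := by
    by_cases h : k < 4
    · exact ⟨⟨k, h⟩, Or.inl rfl⟩
    · exact ⟨⟨3, by norm_num⟩, Or.inr (by simp; omega)⟩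
  have h1 := flat_form hL (g j).isLt hk5 hm hcon
  have h2 := flat_form hL (g j2).isLt hk5 hm (hA j2 k hj2)
  have h3 : Inc β P Q m L (g j2).val k := (hI j2 k hk5).2 hj2
  have h4 : Inc β P Q m L (g j).val k := by
    unfold Inc at h3 ⊢
    rw [h1, ← h2]
    exact h3
  exact hk ((hI j k hk5).1 h4)

end Pool.Agent.MVK.H20
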