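import Pool.Agent.MVK.Stmts

/-!
Adaptation of `Helper91_MVD/FFL.lean` to central squares (`CQ` instead of `Iso2`).
-/

set_option autoImplicit false

namespace Pool.Agent.MVK.C91

open Pool.Agent.Helper14_MV Pool.Agent.Helper2_MV Pool.Agent.MVD

theorem RR_trans {β : FIC} {a b c : List ℕ} (h1 : RR β a b) (h2 : RR β b c) : RR β a c :=
  β.trans h1 h2

/-- moving a letter which is followed by the same letter to the left -/
theorem moveL {β : FIC} (hF : F1L β) (v : ℕ) (A Q : List ℕ) : ∀ (S D : List ℕ),
    (∀ a ∈ S, 2 ≤ (A ++ S ++ v :: (D ++ v :: Q)).count a) →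
    (∀ a ∈ D, 2 ≤ (A ++ S ++ v :: (D ++ v :: Q)).count a) →
      RR β (A ++ S ++ v :: (D ++ v :: Q)) (A ++ v :: (S ++ D ++ v :: Q)) := by
  intro S
  induction S using List.reverseRecOn with
  | nil =>
    intro D _ _
    simpa using RR.refl (β := β) (A ++ v :: (D ++ v :: Q))
  | append_singleton S u ih =>
    intro D hS hD
    have h1 : RR β (A ++ (S ++ [u]) ++ v :: (D ++ v :: Q)) (A ++ S ++ v :: (u :: D ++ v :: Q)) := by
      have e1 : A ++ (S ++ [u]) ++ v :: (D ++ v :: Q) = (A ++ S) ++ u :: v :: (D ++ v :: Q) := by
        simp
      have e2 : A ++ S ++ v :: (u :: D ++ v :: Q) = (A ++ S) ++ v :: u :: (D ++ v :: Q) := by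
        simp
      rw [e1, e2]
      by_cases huv : u = v
      · subst huv
        exact RR.refl _
      · apply RR.symm
        apply hF _ _ _ _ _ huv
        · have h2 := hS u (by simp)
          rw [e1] at h2
          by_contra h3
          have h4 : List.count u (A ++ S) = 0 := by
            apply List.count_eq_zero_of_not_mem
            intro h5
            exact h3 (List.mem_append_left _ h5)
          have h6 : List.count u D = 0 := by
            apply List.count_eq_zero_of_not_mem
            intro h5
            exact h3 (List.mem_append_right _ (List.mem_append_left _ h5))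
          have h7 : List.count u Q = 0 := by
            apply List.count_eq_zero_of_not_mem
            intro h5
            exact h3 (List.mem_append_right _ (List.mem_append_right _ h5))
          have h8 : (v == u) = false := by simpa using fun h => huv h.symm
          simp only [List.count_append, List.count_cons, h6, h7, h8] at h2 h4
          simp at h2
          omega
        · intro a ha
          have h2 := hD a ha
          rw [e1] at h2
          simp only [List.count_append, List.count_cons] at h2 ⊢
          omega
    have hcnt : ∀ a, (A ++ S ++ v :: (u :: D ++ v :: Q)).count a =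
        (A ++ (S ++ [u]) ++ v :: (D ++ v :: Q)).count a := by
      intro a
      simp only [List.count_append, List.count_cons, List.count_nil]
      omega
    have h2 := ih (u :: D) (fun a ha => by rw [hcnt]; exact hS a (by simp [ha]))
      (fun a ha => by
        rw [hcnt]
        rcases List.mem_cons.mp ha with h3 | h3
        · exact hS a (by simp [h3])
        · exact hD a h3)
    have e3 : A ++ v :: (S ++ (u :: D) ++ v :: Q) = A ++ v :: (S ++ [u] ++ D ++ v :: Q) := by
      simp
    rw [e3] at h2
    exact RR_trans h1 h2

theorem not_bfr : ¬ Bfr [0, 1, 2] 2 1 := by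
  rintro ⟨A, B, C, h⟩
  rcases A with _ | ⟨a, _ | ⟨b, _ | ⟨c, A⟩⟩⟩ <;> simp at h

theorem flatMap_zs (g : ℕ → List ℕ) (D : List ℕ)
    (hg : ∀ e (he : e < D.length), g (3 * e + 1) = [D[e]]) :
    (zs (List.range D.length)).flatMap g = D := by
  have h1 : (zs (List.range D.length)).flatMap g =
      (List.range D.length).flatMap (fun e => g (3 * e + 1)) := by
    unfold zs
    rw [List.flatMap_map]
  rw [h1]
  have h2 : ∀ n ≤ D.length, (List.range n).flatMap (fun e => g (3 * e + 1)) = D.take n := by
    intro n
    induction n with
    | zero => intro _; simp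
    | succ n ih =>
      intro hn
      rw [List.range_succ, List.flatMap_append, ih (by omega), List.flatMap_cons,
        List.flatMap_nil, List.append_nil, hg n (by omega), List.take_append_getElem]
  rw [h2 _ le_rfl, List.take_length]

theorem ffl (prp : PrpStmt) (ins : InsStmt) (ctx : CtxStmt) : FflStmt := by
  intro β hM h2 h3 hS2 hF
  have key : ∀ n, ∀ (p q c r : List ℕ) (x y : ℕ), c.length = n →
      Mult c (p ++ x :: y :: (q ++ x :: (c ++ y :: r))) →
      RR β (p ++ x :: y :: (q ++ x :: (c ++ y :: r))) (p ++ y :: x :: (q ++ x :: (c ++ y :: r))) := by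
    intro n
    induction n using Nat.strong_induction_on with
    | _ n ih =>
    intro p q c r x y hn hc
    by_cases hxy : x = y
    · subst hxy; exact RR.refl _
    by_cases hxc : x ∈ c
    · obtain ⟨c1, c2, rfl⟩ := List.append_of_mem hxc
      have h4 := ih c2.length (by rw [← hn]; simp; omega) p (q ++ x :: c1) c2 r x y rfl (by
        intro a ha
        have h5 := hc a (by simp [ha])
        simpa [List.append_assoc] using h5)
      simpa [List.append_assoc] using h4
    by_cases hyc : y ∈ c
    · obtain ⟨c1, c2, rfl⟩ := List.append_of_mem hyc
      have h4 := ih c1.length (by rw [← hn]; simp) p q c1 (c2 ++ y :: r) x y rfl (by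
        intro a ha
        have h5 := hc a (by simp [ha])
        simpa [List.append_assoc] using h5)
      simpa [List.append_assoc] using h4
    by_cases hnd : c.Nodup
    · -- all letters of `c` are different
      have hmem : ∀ a ∈ c, a ∈ p ∨ a ∈ q ∨ a ∈ r := by
        intro a ha
        have h4 := hc a ha
        have hax : a ≠ x := fun h => hxc (h ▸ ha)
        have hay : a ≠ y := fun h => hyc (h ▸ ha)
        by_contra h5
        push Not at h5
        have h6 : List.count a p = 0 := List.count_eq_zero_of_not_mem h5.1
        have h7 : List.count a q = 0 := List.count_eq_zero_of_not_mem h5.2.1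
        have h8 : List.count a r = 0 := List.count_eq_zero_of_not_mem h5.2.2
        have h9 : List.count a c = 1 := List.count_eq_one_of_mem hnd ha
        have h10 : (x == a) = false := by simpa using fun h => hax h.symm
        have h11 : (y == a) = false := by simpa using fun h => hay h.symm
        simp only [List.count_append, List.count_cons, h6, h7, h8, h9, h10, h11] at h4
        simp at h4
      rcases List.eq_nil_or_concat c with hcn | ⟨c0, zl, hcl⟩
      · -- `c = []`
        subst hcn
        have h4 := prp β hM h2 h3 1 [0, 1, 2] [0] (by decide) (by decide)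
          ⟨0, [], rfl, fun h => absurd h not_bfr, fun _ h => absurd ⟨[], [], [2], rfl⟩ h,
            fun h => absurd h not_bfr, fun _ _ => hS2⟩
          ⟨0, [], rfl, fun h => absurd h not_bfr, fun _ h => absurd ⟨[], [], [2], rfl⟩ h,
            fun h => absurd h not_bfr, fun _ _ => hS2⟩ (Or.inl hS2)
        have e1 : ∀ X : List ℕ, Ew [0, 1, 2] [0] X = X ++ [2, 0, 1, 3, 5, 1, 8] := by
          intro X
          simp [Ew, Eg, Bw, zs]
        rw [e1, e1] at h4
        have h5 := h4.sub (fun i => if i = 0 then [x] else if i = 3 then [y] else if i = 2 then q else [])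
        have h6 := ((RR.refl (β := β) p).append h5).append (RR.refl (β := β) r)
        simpa [List.append_assoc] using h6
      · rw [List.concat_eq_append] at hcl
        obtain ⟨zf, cf, hcf⟩ : ∃ zf cf, c = zf :: cf := by
          rcases c with _ | ⟨zf, cf⟩
          · simp at hcl
          · exact ⟨zf, cf, rfl⟩
        by_cases hA : S3 β ∧ (zf ∈ p ∨ zf ∈ q)
        · -- the first letter moves out
          have hm : ∀ X : List ℕ, x ∈ X → RR β (p ++ X ++ (q ++ x :: (c ++ y :: r)))
              (p ++ X ++ ((q ++ [zf]) ++ x :: (cf ++ y :: r))) := by
            intro X hX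
            have h4 := (ctx β).2.2 hA.1 (p ++ X ++ q) (cf ++ y :: r) x zf (by simp [hX])
              (by rcases hA.2 with h | h <;> simp [h])
            rw [hcf]
            simpa [List.append_assoc] using h4
          have h5 := ih cf.length (by rw [← hn, hcf]; simp) p (q ++ [zf]) cf r x y rfl (by
            intro a ha
            have h6 := hc a (by rw [hcf]; simp [ha])
            rw [hcf] at h6
            simp only [List.count_append, List.count_cons, List.count_nil] at h6 ⊢
            omega)
          have h6 := hm [x, y] (by simp)
          have h7 := hm [y, x] (by simp)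
          have h8 : RR β (p ++ [x, y] ++ ((q ++ [zf]) ++ x :: (cf ++ y :: r)))
              (p ++ [y, x] ++ ((q ++ [zf]) ++ x :: (cf ++ y :: r))) := by
            simpa [List.append_assoc] using h5
          have h9 := RR_trans h6 (RR_trans h8 h7.symm)
          simpa [List.append_assoc] using h9
        by_cases hB : S3 β ∧ (zl ∈ p ∨ zl ∈ q)
        · -- the last letter moves out
          have hm : ∀ X : List ℕ, y ∈ X → RR β (p ++ X ++ (q ++ x :: (c ++ y :: r)))
              (p ++ X ++ (q ++ x :: (c0 ++ y :: (zl :: r)))) := by
            intro X hX
            have h4 := (ctx β).2.2 hB.1 (p ++ X ++ q ++ x :: c0) r zl y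
              (by rcases hB.2 with h | h <;> simp [h]) (by simp [hX])
            rw [hcl]
            simpa [List.append_assoc] using h4
          have h5 := ih c0.length (by rw [← hn, hcl]; simp) p q c0 (zl :: r) x y rfl (by
            intro a ha
            have h6 := hc a (by rw [hcl]; simp [ha])
            rw [hcl] at h6
            simp only [List.count_append, List.count_cons, List.count_nil] at h6 ⊢
            omega)
          have h6 := hm [x, y] (by simp)
          have h7 := hm [y, x] (by simp)
          have h8 : RR β (p ++ [x, y] ++ (q ++ x :: (c0 ++ y :: (zl :: r))))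
              (p ++ [y, x] ++ (q ++ x :: (c0 ++ y :: (zl :: r)))) := by
            simpa [List.append_assoc] using h5
          have h9 := RR_trans h6 (RR_trans h8 h7.symm)
          simpa [List.append_assoc] using h9
        -- PRP
        obtain ⟨R, g, M, hR, hB01, hword, hg0, hg3, hgz, hkind⟩ := ins p q r c x y hnd hxy hmem
        have hpos : 0 < c.length := by rw [hcf]; simp
        have hrg : ∀ e (he : e < c.length), (S3 β → ¬ ((c)[e] ∈ p ∨ (c)[e] ∈ q)) →
            rg β (Bfr R (e + 2) 1) (Bfr R 0 1) := by
          intro e he h4
          refine ⟨fun h5 _ h6 => h4 h6 ((hkind e he).mp h5), fun _ h5 => absurd hB01 h5,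
            fun _ h5 => absurd hB01 h5, fun _ _ => hS2⟩
        have h4 := prp β hM h2 h3 c.length R (List.range c.length) hR (List.Perm.refl _)
          ⟨0, (List.range (c.length - 1)).map Nat.succ, by
              obtain ⟨k, hk⟩ := Nat.exists_eq_succ_of_ne_zero hpos.ne'
              rw [hk, List.range_succ_eq_map]; simp,
            hrg 0 hpos (by
              intro h5 h6
              have h7 : (c)[0] = zf := by simp [hcf]
              rw [h7] at h6
              exact hA ⟨h5, h6⟩)⟩
          ⟨c.length - 1, List.range (c.length - 1), by
              obtain ⟨k, hk⟩ := Nat.exists_eq_succ_of_ne_zero hpos.ne'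
              rw [hk, List.range_succ]; simp,
            hrg (c.length - 1) (by omega) (by
              intro h5 h6
              have h7 : (c)[c.length - 1]'(by omega) = zl := by simp [hcl]
              rw [h7] at h6
              exact hB ⟨h5, h6⟩)⟩ (Or.inl hS2)
        have h5 := (RR.refl (β := β) M).append (h4.sub g)
        unfold Ew at h5
        rw [← hword, ← hword] at h5
        have e1 : (0 :: (zs (List.range c.length) ++ [3])).flatMap g = x :: (c ++ [y]) := by
          rw [List.flatMap_cons, List.flatMap_append, flatMap_zs g c hgz, hg0]
          simp [hg3]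
        have e2 : [0, 3].flatMap g = [x, y] := by simp [hg0, hg3]
        have e3 : [3, 0].flatMap g = [y, x] := by simp [hg0, hg3]
        rw [e1, e2, e3] at h5
        simpa [List.append_assoc] using h5
    · -- a repeated letter
      obtain ⟨v, hv⟩ : ∃ v, 2 ≤ c.count v := by
        by_contra h4
        push Not at h4
        exact hnd (List.nodup_iff_count_le_one.mpr fun a => by have := h4 a; omega)
      obtain ⟨c1, c', hc1, hvc1⟩ := List.eq_append_cons_of_mem
        (List.count_pos_iff.mp (by omega : 0 < c.count v))
      have hvc' : v ∈ c' := by
        rw [hc1, List.count_append, List.count_cons, List.count_eq_zero_of_not_mem hvc1] at hv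
        simp at hv
        exact hv
      obtain ⟨c2, c3, hc2⟩ := List.append_of_mem hvc'
      subst hc2
      have hcx : ∀ X : List ℕ, X.Perm [x, y] → ∀ a ∈ x :: c,
          2 ≤ (p ++ X ++ (q ++ x :: (c ++ y :: r))).count a := by
        intro X hX a ha
        have h4 : (p ++ X ++ (q ++ x :: (c ++ y :: r))).count a =
            (p ++ x :: y :: (q ++ x :: (c ++ y :: r))).count a := by
          have h5 := hX.count_eq a
          simp only [List.count_append, List.count_cons, List.count_nil] at h5 ⊢
          omega
        rw [h4]
        rcases List.mem_cons.mp ha with h5 | h5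
        · subst h5
          simp only [List.count_append, List.count_cons, BEq.rfl, if_true]
          omega
        · exact hc a h5
      have hm : ∀ X : List ℕ, X.Perm [x, y] → RR β (p ++ X ++ (q ++ x :: (c ++ y :: r)))
          (p ++ X ++ ((q ++ [v]) ++ x :: ((c1 ++ c2 ++ v :: c3) ++ y :: r))) := by
        intro X hX
        have e1 : p ++ X ++ (q ++ x :: (c ++ y :: r)) =
            (p ++ X ++ q) ++ (x :: c1) ++ v :: (c2 ++ v :: (c3 ++ y :: r)) := by
          rw [hc1]; simp
        have h5 := hcx X hX
        rw [e1] at h5
        have h4 := moveL hF v (p ++ X ++ q) (c3 ++ y :: r) (x :: c1) c2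
          (fun a ha => h5 a (by
            rcases List.mem_cons.mp ha with h6 | h6
            · simp [h6]
            · rw [hc1]; simp [h6]))
          (fun a ha => h5 a (by rw [hc1]; simp [ha]))
        rw [e1]
        simpa [List.append_assoc] using h4
      have h5 := ih (c1 ++ c2 ++ v :: c3).length (by rw [← hn, hc1]; simp) p (q ++ [v])
        (c1 ++ c2 ++ v :: c3) r x y rfl (by
          intro a ha
          have h6 := hc a (by
            rw [hc1]
            simp only [List.mem_append, List.mem_cons] at ha ⊢
            tauto)
          rw [hc1] at h6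
          simp only [List.count_append, List.count_cons, List.count_nil] at h6 ⊢
          omega)
      have h6 := hm [x, y] (List.Perm.refl _)
      have h7 := hm [y, x] (List.Perm.swap _ _ _)
      have h8 : RR β (p ++ [x, y] ++ ((q ++ [v]) ++ x :: ((c1 ++ c2 ++ v :: c3) ++ y :: r)))
          (p ++ [y, x] ++ ((q ++ [v]) ++ x :: ((c1 ++ c2 ++ v :: c3) ++ y :: r))) := by
        simpa [List.append_assoc] using h5
      have h9 := RR_trans h6 (RR_trans h8 h7.symm)
      simpa [List.append_assoc] using h9
  intro p q c r x y hc
  exact key c.length p q c r x y rfl hc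

end Pool.Agent.MVK.C91
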