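import Pool.Agent.MVK.Stmts
import Pool.Agent.Helper40_MVD.KEY

/-!
Row KEY of block K (copy of the last theorem of Helper40_MVD/KEY).
-/

namespace Pool.Agent.MVK.H20

open Pool.Agent.Helper14_MV Pool.Agent.Helper2_MV Pool.Agent.MVD Pool.Agent.MVD.H40

theorem key (hFac : Pool.Agent.MVD.FacStmt) (hFct : Pool.Agent.MVK.FctStmt) :
    Pool.Agent.MVK.KeyStmt := by
  intro β h2 h3 P Q m hm hPQ hH hC g h φ M N hS
  obtain ⟨L, hw, hSL⟩ := hS
  obtain ⟨F1, F2⟩ := hFct β h2 h3 P Q m hm hPQ hH hC h L hSL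
  by_cases hne : ∀ j : Fin 4, φ (3 * j.val) = []
  · exact Or.inl hne
  · right
    push Not at hne
    intro s
    exact Pool.Agent.MVD.H40.Cx.fin ⟨hFac, hm, hPQ, hSL.1, hw, F1, F2, hne⟩ s

end Pool.Agent.MVK.H20
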