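import Pool.Agent.MVK.Stmts
import Pool.Agent.Helper77_MVD.KP2

/-!
Row KP2 of block K (copy of Helper77_MVD/KP2 without `Iso2`).
-/

namespace Pool.Agent.MVK.H20

open Pool.Agent.Helper14_MV Pool.Agent.Helper2_MV Pool.Agent.MVD Pool.Agent.MVD.H77

theorem kp2 : Pool.Agent.MVK.Kp2Stmt := by
  intro β h2 h3 R B B' e hR hB hB' he hRR c r s hc hr hs hrs hcnt
  have hcount : (R.map fun q => (B q).count c).sum = 2 := by
    rw [List.map_congr_left (fun q hq => hcnt q hq), sum_two hrs,
      List.count_eq_one_of_mem hR hr, List.count_eq_one_of_mem hR hs]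
  have hstep : ∀ (g : ℕ → ℕ) (n : ℕ) (hn : n < R.length),
      ((R.take (n + 1)).map g).sum = ((R.take n).map g).sum + g (R[n]) := by
    intro g n hn
    rw [List.take_succ_eq_append_getElem hn, List.map_append, List.sum_append, List.map_cons,
      List.map_nil, List.sum_cons, List.sum_nil, add_zero]
  have hproj : ∀ (n : ℕ) (hn : n < R.length),
      ((((R.take (n + 1)).map fun q => (B q).count c).sum = 1 ∧
        ((R.drop (n + 1)).map fun q => (B q).count c).sum + 0 = 1) ↔
      (((R.take (n + 1)).map fun q => (B' q).count c).sum = 1 ∧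
        ((R.drop (n + 1)).map fun q => (B' q).count c).sum + e.count c = 1)) := by
    intro n hn
    have hdec : R = R.take n ++ R[n] :: R.drop (n + 1) := by
      rw [← List.drop_eq_getElem_cons hn, List.take_append_drop]
    have hnd : (R.take n ++ R[n] :: R.drop (n + 1)).Nodup := by rw [← hdec]; exact hR
    rw [List.nodup_append, List.nodup_cons] at hnd
    have hq1 : R[n] ∉ R.take n := fun h => hnd.2.2 _ h _ List.mem_cons_self rfl
    have hq2 : R[n] ∉ R.drop (n + 1) := hnd.2.1.1
    have htake : R.take (n + 1) = R.take n ++ [R[n]] := List.take_succ_eq_append_getElem hn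
    have hF := hRR.filter (fun i => i == c || i == 3 * R[n] + 2)
    have e1 : Bw R B = Bw (R.take n ++ R[n] :: R.drop (n + 1)) B ++ [] := by
      rw [List.append_nil, ← hdec]
    have e2 : Bw R B' ++ e = Bw (R.take n ++ R[n] :: R.drop (n + 1)) B' ++ e := by
      rw [← hdec]
    rw [e1, e2, filt_mem hc B _ _ [] (by rw [← hdec]; exact hB)
      (fun x hx => absurd hx (List.not_mem_nil)) hq1 hq2,
      filt_mem hc B' _ _ e (by rw [← hdec]; exact hB') he hq1 hq2, ← htake] at hF
    have hne : c ≠ 3 * R[n] + 2 := by
      intro h
      omega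
    have hi := rep_iff h3 hne hF
    rw [List.count_nil] at hi
    exact hi
  have hT' : (R.map fun q => (B' q).count c).sum + e.count c = 2 := by
    have hex : ∃ n, 1 ≤ ((R.take n).map fun q => (B q).count c).sum ∧ n ≤ R.length :=
      ⟨R.length, by rw [List.take_length, hcount]; omega, le_rfl⟩
    classical
    obtain ⟨i, ⟨hi1, hiN⟩, hmin⟩ : ∃ i, (1 ≤ ((R.take i).map fun q => (B q).count c).sum ∧
        i ≤ R.length) ∧ ∀ j < i, ¬ (1 ≤ ((R.take j).map fun q => (B q).count c).sum ∧
          j ≤ R.length) :=
      ⟨Nat.find hex, Nat.find_spec hex, fun j hj => Nat.find_min hex hj⟩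
    have hi0 : 0 < i := by
      rcases Nat.eq_zero_or_pos i with h | h
      · subst h
        simp at hi1
      · exact h
    obtain ⟨k, rfl⟩ : ∃ k, i = k + 1 := ⟨i - 1, by omega⟩
    have hk := hmin k (by omega)
    have hk1 := hstep (fun q => (B q).count c) k (by omega)
    have hk2 := hcnt (R[k]) (List.getElem_mem (by omega))
    have hk3 : (B R[k]).count c ≤ 1 := by
      rw [hk2]
      split_ifs <;> omega
    have t1 : ((R.take (k + 1)).map fun q => (B q).count c).sum
        + ((R.drop (k + 1)).map fun q => (B q).count c).sum = 2 := by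
      rw [← List.sum_append, ← List.map_append, List.take_append_drop]
      exact hcount
    have t2 : ((R.take (k + 1)).map fun q => (B' q).count c).sum
        + ((R.drop (k + 1)).map fun q => (B' q).count c).sum
          = (R.map fun q => (B' q).count c).sum := by
      rw [← List.sum_append, ← List.map_append, List.take_append_drop]
    have hA1 : ((R.take (k + 1)).map fun q => (B q).count c).sum = 1 := by
      have h0 : ((R.take k).map fun q => (B q).count c).sum = 0 := by
        by_contra hne
        exact hk ⟨by omega, by omega⟩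
      omega
    have h5 := (hproj k (by omega)).1 ⟨hA1, by omega⟩
    omega
  have hcore := core R.length
    (fun n => ((R.take n).map fun q => (B q).count c).sum)
    (fun n => ((R.take n).map fun q => (B' q).count c).sum) (e.count c)
    (fun n hn => by
      show ((R.take (n + 1)).map fun q => (B q).count c).sum ≤ _
      rw [hstep _ n hn, hcnt _ (List.getElem_mem hn)]
      split_ifs <;> omega)
    (fun n hn => by
      show _ ≤ ((R.take (n + 1)).map fun q => (B q).count c).sum
      rw [hstep _ n hn]
      omega)
    (fun n hn => by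
      show _ ≤ ((R.take (n + 1)).map fun q => (B' q).count c).sum
      rw [hstep _ n hn]
      omega)
    (by simp) (by simp) (by rw [List.take_length]; exact hcount)
    (by rw [List.take_length]; exact hT')
    (fun n hn => by
      have hdec : R = R.take n ++ R[n] :: R.drop (n + 1) := by
        rw [← List.drop_eq_getElem_cons hn, List.take_append_drop]
      have hnd : (R.take n ++ R[n] :: R.drop (n + 1)).Nodup := by rw [← hdec]; exact hR
      rw [List.nodup_append, List.nodup_cons] at hnd
      have hq1 : R[n] ∉ R.take n := fun h => hnd.2.2 _ h _ List.mem_cons_self rfl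
      have hq2 : R[n] ∉ R.drop (n + 1) := hnd.2.1.1
      have htake : R.take (n + 1) = R.take n ++ [R[n]] := List.take_succ_eq_append_getElem hn
      have hF := hRR.filter (fun i => i == c || i == 3 * R[n] + 2)
      have e1 : Bw R B = Bw (R.take n ++ R[n] :: R.drop (n + 1)) B ++ [] := by
        rw [List.append_nil, ← hdec]
      have e2 : Bw R B' ++ e = Bw (R.take n ++ R[n] :: R.drop (n + 1)) B' ++ e := by
        rw [← hdec]
      rw [e1, e2, filt_mem hc B _ _ [] (by rw [← hdec]; exact hB)
        (fun x hx => absurd hx (List.not_mem_nil)) hq1 hq2,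
        filt_mem hc B' _ _ e (by rw [← hdec]; exact hB') he hq1 hq2, ← htake] at hF
      have hne : c ≠ 3 * R[n] + 2 := by
        intro h
        omega
      have hi := rep_iff h3 hne hF
      have t1 : ((R.take (n + 1)).map fun q => (B q).count c).sum
          + ((R.drop (n + 1)).map fun q => (B q).count c).sum = 2 := by
        rw [← List.sum_append, ← List.map_append, List.take_append_drop]
        exact hcount
      have t2 : ((R.take (n + 1)).map fun q => (B' q).count c).sum
          + ((R.drop (n + 1)).map fun q => (B' q).count c).sum + e.count c = 2 := by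
        rw [← List.sum_append, ← List.map_append, List.take_append_drop]
        exact hT'
      rw [List.count_nil] at hi
      show ((R.take (n + 1)).map fun q => (B q).count c).sum = 1 ↔
        ((R.take (n + 1)).map fun q => (B' q).count c).sum = 1
      omega)
  refine ⟨fun q hq => ?_, hcore.2⟩
  obtain ⟨n, hn, hqn⟩ := List.getElem_of_mem hq
  have h5 := hcore.1 (n + 1) (by omega)
  have h6 := hcore.1 n (by omega)
  have h7 := hstep (fun q => (B q).count c) n hn
  have h8 := hstep (fun q => (B' q).count c) n hn
  have h9 := hcnt q hq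
  rw [← hqn] at h9 ⊢
  rw [← h9]
  omega

end Pool.Agent.MVK.H20
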