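import Pool.Agent.MVK.Stmts

/-!
Adaptation of `Helper23_MVD/KPF.lean` to central squares (`CQ` instead of `Iso2`).
-/

set_option autoImplicit false

namespace Pool.Agent.MVK.C23

open Pool.Agent.Helper14_MV Pool.Agent.Helper2_MV Pool.Agent.MVD

/-- the projection to `x_i`, `x_j` and the copy `k` -/
def ph (k i j : ℕ) (c : ℕ) : List ℕ :=
  if c % 3 = 2 then [c]
  else if c % 3 = 0 then (if c = 3 * i then [0] else if c = 3 * j then [3] else [])
  else (if (c / 3) % 3 = k then [3 * (c / 9) + 1] else [])

theorem ph_sep {k i j c : ℕ} (h : c % 3 = 2) : ph k i j c = [c] := by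
  unfold ph
  rw [if_pos h]

theorem ph_x (k i j a : ℕ) :
    ph k i j (3 * a) = if a = i then [0] else if a = j then [3] else [] := by
  unfold ph
  rw [if_neg (by omega), if_pos (by omega)]
  by_cases h : a = i
  · rw [if_pos (by omega), if_pos h]
  · rw [if_neg (by omega), if_neg h]
    by_cases h' : a = j
    · rw [if_pos (by omega), if_pos h']
    · rw [if_neg (by omega), if_neg h']

theorem ph_z {k i j k' : ℕ} (l : ℕ) (hk' : k' < 3) :
    ph k i j (3 * (3 * l + k') + 1) = if k' = k then [3 * l + 1] else [] := by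
  unfold ph
  rw [if_neg (by omega), if_neg (by omega)]
  have e1 : (3 * (3 * l + k') + 1) / 3 % 3 = k' := by omega
  have e2 : (3 * (3 * l + k') + 1) / 9 = l := by omega
  rw [e1, e2]

theorem ph_sfr {k i j : ℕ} {l : List ℕ} (h : SFr l) : SFr (l.flatMap (ph k i j)) := by
  intro d hd
  rw [List.mem_flatMap] at hd
  obtain ⟨c, hc, hd⟩ := hd
  have h1 := h c hc
  unfold ph at hd
  rw [if_neg h1] at hd
  split_ifs at hd
  all_goals simp only [List.mem_singleton, List.not_mem_nil] at hd
  all_goals omega

theorem bw_flatMap (R : List ℕ) (B : ℕ → List ℕ) (k i j : ℕ) :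
    (Bw R B).flatMap (ph k i j) = Bw R (fun r => (B r).flatMap (ph k i j)) := by
  unfold Bw
  rw [List.flatMap_assoc]
  apply List.flatMap_congr
  intro r _
  rw [List.flatMap_append, List.flatMap_cons, ph_sep (by omega)]
  rfl

theorem zs_flatMap (D : List ℕ) {k i j k' : ℕ} (hk' : k' < 3) :
    (zs (D.map (fun l => 3 * l + k'))).flatMap (ph k i j) = if k' = k then zs D else [] := by
  unfold zs
  induction D with
  | nil => simp
  | cons a D ih =>
    rw [List.map_cons, List.map_cons, List.flatMap_cons, ih, ph_z a hk', List.map_cons]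
    by_cases h : k' = k
    · rw [if_pos h, if_pos h, if_pos h]
      rfl
    · rw [if_neg h, if_neg h, if_neg h]
      rfl

theorem L3_eq (h : ℕ → List ℕ) : L3 h =
    3 * 0 :: (zs ((h 0).map (fun i => 3 * i + 0)) ++ 3 * 1 ::
      (zs ((h 1).map (fun i => 3 * i + 1)) ++
        3 * 2 :: (zs ((h 2).map (fun i => 3 * i + 2)) ++ [3 * 3]))) := rfl

/-- image of the main block -/
theorem L3_flatMap (h : ℕ → List ℕ) {k i j : ℕ} (hik : i ≤ k) (hkj : k < j) (hj : j ≤ 3) :
    (L3 h).flatMap (ph k i j) = 0 :: (zs (h k) ++ [3]) := by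
  rw [L3_eq]
  simp only [List.flatMap_cons, List.flatMap_append, List.flatMap_nil, ph_x]
  rw [zs_flatMap _ (by omega : 0 < 3), zs_flatMap _ (by omega : 1 < 3),
    zs_flatMap _ (by omega : 2 < 3)]
  have hk : k < 3 := by omega
  interval_cases k
  · interval_cases i
    interval_cases j <;> simp
  · interval_cases i <;> interval_cases j <;> simp
  · interval_cases i <;> interval_cases j <;> simp

theorem Z3_eq (r : ℕ) : Z3 r = [3 * (3 * (r - 2) + 0) + 1, 3 * (3 * (r - 2) + 1) + 1,
    3 * (3 * (r - 2) + 2) + 1] := rfl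

theorem Z3_flatMap {r : ℕ} {l : List ℕ} (hl : l.Perm (Z3 r)) {k i j : ℕ} (hk : k < 3) :
    l.flatMap (ph k i j) = [3 * (r - 2) + 1] := by
  have h1 : (l.flatMap (ph k i j)).Perm ((Z3 r).flatMap (ph k i j)) := hl.flatMap_right _
  have h2 : (Z3 r).flatMap (ph k i j) = [3 * (r - 2) + 1] := by
    rw [Z3_eq]
    simp only [List.flatMap_cons, List.flatMap_nil]
    rw [ph_z _ (by omega), ph_z _ (by omega), ph_z _ (by omega)]
    interval_cases k <;> simp
  rw [h2] at h1
  exact List.perm_singleton.1 h1

theorem perm_pair' {X : List ℕ} (h : X.Perm [0, 3]) : X = [0, 3] ∨ X = [3, 0] := by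
  have hl := h.length_eq
  match X, hl with
  | [a, b], _ =>
    have ha : a ∈ [0, 3] := h.mem_iff.1 (by simp)
    have hb : b ∈ [0, 3] := h.mem_iff.1 (by simp)
    have hn : [a, b].Nodup := h.nodup_iff.2 (by decide)
    simp only [List.mem_cons, List.not_mem_nil, or_false] at ha hb
    simp only [List.nodup_cons, List.mem_singleton, List.not_mem_nil, not_false_eq_true,
      List.nodup_nil, and_true] at hn
    rcases ha with rfl | rfl <;> rcases hb with rfl | rfl
    · exact absurd rfl hn
    · left; rfl
    · right; rfl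
    · exact absurd rfl hn

/-- image of the block `0` -/
theorem X_flatMap {l : List ℕ} (hl : l.Perm [0, 3, 6, 9]) {k i j : ℕ} (hij : i < j)
    (hj : j ≤ 3) : l.flatMap (ph k i j) = [0, 3] ∨ l.flatMap (ph k i j) = [3, 0] := by
  apply perm_pair'
  have h1 : (l.flatMap (ph k i j)).Perm ([3 * 0, 3 * 1, 3 * 2, 3 * 3].flatMap (ph k i j)) :=
    hl.flatMap_right _
  have h2 : [3 * 0, 3 * 1, 3 * 2, 3 * 3].flatMap (ph k i j) = [0, 3] := by
    simp only [List.flatMap_cons, List.flatMap_nil, ph_x]
    interval_cases j <;> interval_cases i <;> simp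
  rw [h2] at h1
  exact h1

/-- counting in the chains -/
theorem count_zs (D : List ℕ) {k : ℕ} (hk : k < 3) (c : ℕ) :
    (zs (D.map (fun l => 3 * l + k))).count c =
      if c % 3 = 1 ∧ c / 3 % 3 = k then D.count (c / 9) else 0 := by
  unfold zs
  induction D with
  | nil => simp
  | cons a D ih =>
    rw [List.map_cons, List.map_cons, List.count_cons, ih, List.count_cons]
    by_cases h : c % 3 = 1 ∧ c / 3 % 3 = k
    · rw [if_pos h, if_pos h]
      congr 1
      by_cases h2 : a = c / 9
      · rw [if_pos (by simpa using (by omega : 3 * (3 * a + k) + 1 = c)),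
          if_pos (by simpa using h2)]
      · rw [if_neg (by simpa using (by omega : ¬ 3 * (3 * a + k) + 1 = c)),
          if_neg (by simpa using h2)]
    · rw [if_neg h, if_neg h, if_neg]
      simp only [beq_iff_eq]
      intro h2
      exact h ⟨by omega, by omega⟩

theorem count_range (m c : ℕ) : (List.range m).count c = if c < m then 1 else 0 := by
  rw [(List.nodup_range (n := m)).count]
  simp

theorem count_L3 {h : ℕ → List ℕ} {m : ℕ} (hh : ∀ k < 3, (h k).Perm (List.range m)) (c : ℕ) :
    (L3 h).count c = if (c % 3 = 0 ∧ c < 12) ∨ (c % 3 = 1 ∧ c / 9 < m) then 1 else 0 := by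
  rw [L3_eq]
  simp only [List.count_cons, List.count_append, List.count_nil]
  rw [count_zs _ (by omega : 0 < 3), count_zs _ (by omega : 1 < 3), count_zs _ (by omega : 2 < 3),
    (hh 0 (by omega)).count_eq, (hh 1 (by omega)).count_eq, (hh 2 (by omega)).count_eq,
    count_range]
  simp only [beq_iff_eq]
  have h3 : c % 3 = 0 ∨ c % 3 = 1 ∨ c % 3 = 2 := by omega
  have h9 : c / 3 % 3 = 0 ∨ c / 3 % 3 = 1 ∨ c / 3 % 3 = 2 := by omega
  rcases h3 with h3 | h3 | h3
  · simp only [h3]
    by_cases h : c < 12
    · have : c = 0 ∨ c = 3 ∨ c = 6 ∨ c = 9 := by omega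
      rcases this with rfl | rfl | rfl | rfl <;> simp
    · have h0 : ¬ 3 * 0 = c := by omega
      have h1 : ¬ 3 * 1 = c := by omega
      have h2 : ¬ 3 * 2 = c := by omega
      have h4 : ¬ 3 * 3 = c := by omega
      rw [if_neg h0, if_neg h1, if_neg h2, if_neg h4]
      simp [h]
  · have h0 : ¬ 3 * 0 = c := by omega
    have h1 : ¬ 3 * 1 = c := by omega
    have h2 : ¬ 3 * 2 = c := by omega
    have h4 : ¬ 3 * 3 = c := by omega
    rw [if_neg h0, if_neg h1, if_neg h2, if_neg h4]
    simp only [h3]
    rcases h9 with h9 | h9 | h9 <;> simp [h9]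
  · have h0 : ¬ 3 * 0 = c := by omega
    have h1 : ¬ 3 * 1 = c := by omega
    have h2 : ¬ 3 * 2 = c := by omega
    have h4 : ¬ 3 * 3 = c := by omega
    rw [if_neg h0, if_neg h1, if_neg h2, if_neg h4]
    simp [h3]

theorem count_X {l : List ℕ} (hl : l.Perm [0, 3, 6, 9]) (c : ℕ) :
    l.count c = if c % 3 = 0 ∧ c < 12 then 1 else 0 := by
  have hn : l.Nodup := hl.nodup_iff.2 (by decide)
  rw [hn.count]
  have : c ∈ l ↔ (c % 3 = 0 ∧ c < 12) := by
    rw [hl.mem_iff]
    simp only [List.mem_cons, List.not_mem_nil, or_false]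
    omega
  simp only [this]

theorem count_Z3 {r : ℕ} {l : List ℕ} (hl : l.Perm (Z3 r)) (c : ℕ) :
    l.count c = if c % 3 = 1 ∧ c / 9 = r - 2 then 1 else 0 := by
  have hn : l.Nodup := hl.nodup_iff.2 (by
    rw [Z3_eq]
    simp)
  rw [hn.count]
  have : c ∈ l ↔ (c % 3 = 1 ∧ c / 9 = r - 2) := by
    rw [hl.mem_iff, Z3_eq]
    simp only [List.mem_cons, List.not_mem_nil, or_false]
    omega
  simp only [this]

/-- gluing two overlapping pieces -/
theorem glue {L A C : List ℕ} {x : ℕ} {p q : ℕ → Bool} (hn : L.Nodup)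
    (hpq : ∀ c ∈ L, p c = true ∨ q c = true) (hx : ∀ c ∈ L, p c = true → q c = true → c = x)
    (hp : L.filter p = A ++ [x]) (hq : L.filter q = x :: C) : L = A ++ x :: C := by
  have hxL : x ∈ L := by
    have : x ∈ L.filter q := by
      rw [hq]
      exact List.mem_cons_self ..
    exact (List.mem_filter.1 this).1
  have hpx : p x = true := by
    have : x ∈ L.filter p := by
      rw [hp]
      simp
    exact (List.mem_filter.1 this).2
  have hqx : q x = true := by
    have : x ∈ L.filter q := by
      rw [hq]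
      exact List.mem_cons_self ..
    exact (List.mem_filter.1 this).2
  obtain ⟨L1, L2, rfl⟩ := List.append_of_mem hxL
  have hx1 : x ∉ L1 := fun h => List.disjoint_of_nodup_append hn h (by simp)
  have hx2 : x ∉ L2 := (List.nodup_cons.1 (List.nodup_append.1 hn).2.1).1
  rw [List.filter_append, List.filter_cons_of_pos hpx] at hp
  rw [List.filter_append, List.filter_cons_of_pos hqx] at hq
  have hnp : (L1.filter p ++ x :: L2.filter p).Nodup := by
    have := hn.filter p
    rwa [List.filter_append, List.filter_cons_of_pos hpx] at this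
  -- the part behind `x` is empty
  have e2 : L2.filter p = [] := by
    by_contra hne
    obtain ⟨y, hy⟩ := List.exists_mem_of_ne_nil _ hne
    have h1 : (L1.filter p ++ x :: L2.filter p).getLast (by simp) = x := by
      simp only [hp, List.getLast_append_singleton]
    rw [List.getLast_append_of_ne_nil _ (by simp), List.getLast_cons hne] at h1
    exact hx2 (List.mem_filter.1 (h1 ▸ List.getLast_mem hne)).1
  rw [e2] at hp
  have e1 : L1.filter p = A := List.append_cancel_right hp
  have e3 : L1.filter q = [] := by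
    by_contra hne
    obtain ⟨y, t, hyt⟩ := List.exists_cons_of_ne_nil hne
    rw [hyt, List.cons_append, List.cons.injEq] at hq
    have hy : y ∈ L1.filter q := by
      rw [hyt]
      exact List.mem_cons_self ..
    exact hx1 (hq.1 ▸ (List.mem_filter.1 hy).1)
  rw [e3, List.nil_append, List.cons.injEq] at hq
  have e4 : L1.filter p = L1 := by
    rw [List.filter_eq_self]
    intro c hc
    rcases hpq c (by simp [hc]) with h | h
    · exact h
    · rw [List.filter_eq_nil_iff] at e3
      exact absurd h (e3 c hc)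
  have e5 : L2.filter q = L2 := by
    rw [List.filter_eq_self]
    intro c hc
    rcases hpq c (by simp [hc]) with h | h
    · rw [List.filter_eq_nil_iff] at e2
      exact absurd h (e2 c hc)
    · exact h
  rw [← e1, e4, ← hq.2, e5]

/-- the letters of the copy `k` and the two neighbours -/
def prd (k : ℕ) (c : ℕ) : Bool :=
  decide (c = 3 * k ∨ c = 3 * (k + 1) ∨ (c % 3 = 1 ∧ c / 3 % 3 = k))

/-- the inverse of the projection -/
def un (k d : ℕ) : ℕ := if d = 0 then 3 * k else if d = 3 then 3 * (k + 1) else
  3 * (3 * (d / 3) + k) + 1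

theorem un_zs (k : ℕ) (D : List ℕ) : (zs D).map (un k) = zs (D.map (fun l => 3 * l + k)) := by
  unfold zs
  rw [List.map_map, List.map_map]
  apply List.map_congr_left
  intro e _
  simp only [Function.comp, un]
  rw [if_neg (by omega), if_neg (by omega)]
  have : (3 * e + 1) / 3 = e := by omega
  rw [this]

theorem ph_un {k c : ℕ} (hc : c % 3 ≠ 2) :
    (ph k k (k + 1) c).map (un k) = if prd k c then [c] else [] := by
  unfold ph
  rw [if_neg hc]
  by_cases h0 : c % 3 = 0
  · rw [if_pos h0]
    by_cases h1 : c = 3 * k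
    · rw [if_pos h1]
      subst h1
      simp [un, prd]
    · rw [if_neg h1]
      by_cases h2 : c = 3 * (k + 1)
      · rw [if_pos h2]
        subst h2
        simp [un, prd]
      · rw [if_neg h2]
        have : prd k c = false := by
          unfold prd
          rw [decide_eq_false_iff_not]
          rintro (h | h | h)
          · exact h1 h
          · exact h2 h
          · omega
        simp [this]
  · rw [if_neg h0]
    by_cases h1 : c / 3 % 3 = k
    · rw [if_pos h1]
      have : prd k c = true := by
        unfold prd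
        rw [decide_eq_true_iff]
        right; right
        omega
      rw [this]
      simp only [List.map_cons, List.map_nil, un, if_true]
      rw [if_neg (by omega), if_neg (by omega)]
      congr 1
      omega
    · rw [if_neg h1]
      have : prd k c = false := by
        unfold prd
        rw [decide_eq_false_iff_not]
        rintro (h | h | h)
        · omega
        · omega
        · omega
      simp [this]

theorem filter_prd {k : ℕ} {L D : List ℕ} (hL : SFr L)
    (h : L.flatMap (ph k k (k + 1)) = 0 :: (zs D ++ [3])) :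
    L.filter (prd k) = 3 * k :: (zs (D.map (fun l => 3 * l + k)) ++ [3 * (k + 1)]) := by
  have h1 := congrArg (List.map (un k)) h
  rw [List.map_flatMap, List.map_cons, List.map_append, un_zs] at h1
  have h2 : L.flatMap (fun a => (ph k k (k + 1) a).map (un k)) = L.filter (prd k) := by
    rw [← flatMap_filter]
    apply List.flatMap_congr
    intro c hc
    exact ph_un (hL c hc)
  rw [h2] at h1
  rw [h1]
  simp [un]

/-- the main block is determined by its three projections -/
theorem main_block {m : ℕ} {L : List ℕ} {h : ℕ → List ℕ} (hn : L.Nodup)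
    (hmem : ∀ c ∈ L, (c % 3 = 0 ∧ c < 12) ∨ (c % 3 = 1 ∧ c / 9 < m))
    (hp : ∀ k < 3, L.flatMap (ph k k (k + 1)) = 0 :: (zs (h k) ++ [3])) : L = L3 h := by
  have hS : SFr L := by
    intro c hc
    have := hmem c hc
    omega
  have f0 := filter_prd hS (hp 0 (by omega))
  have f1 := filter_prd hS (hp 1 (by omega))
  have f2 := filter_prd hS (hp 2 (by omega))
  have hall : ∀ c ∈ L, prd 0 c = true ∨ prd 1 c = true ∨ prd 2 c = true := by
    intro c hc
    have := hmem c hc
    simp only [prd, decide_eq_true_iff]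
    omega
  have g1 : L.filter (fun c => prd 1 c || prd 2 c) =
      (3 * 1 :: zs ((h 1).map (fun l => 3 * l + 1))) ++
        3 * 2 :: (zs ((h 2).map (fun l => 3 * l + 2)) ++ [3 * 3]) := by
    refine glue (p := prd 1) (q := prd 2) (hn.filter _) ?_ ?_ ?_ ?_
    · intro c hc
      have := (List.mem_filter.1 hc).2
      simpa using this
    · intro c hc h1 h2
      simp only [prd, decide_eq_true_iff] at h1 h2
      omega
    · rw [List.filter_filter]
      have : L.filter (fun a => prd 1 a && (prd 1 a || prd 2 a)) = L.filter (prd 1) := by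
        apply List.filter_congr
        intro c _
        cases prd 1 c <;> simp
      rw [this, f1]
      simp
    · rw [List.filter_filter]
      have : L.filter (fun a => prd 2 a && (prd 1 a || prd 2 a)) = L.filter (prd 2) := by
        apply List.filter_congr
        intro c _
        cases prd 2 c <;> simp
      rw [this, f2]
  have g0 : L = (3 * 0 :: zs ((h 0).map (fun l => 3 * l + 0))) ++
      3 * 1 :: (zs ((h 1).map (fun l => 3 * l + 1)) ++
        3 * 2 :: (zs ((h 2).map (fun l => 3 * l + 2)) ++ [3 * 3])) := by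
    refine glue (p := prd 0) (q := fun c => prd 1 c || prd 2 c) hn ?_ ?_ ?_ ?_
    · intro c hc
      have := hall c hc
      simpa using this
    · intro c hc h1 h2
      simp only [prd, Bool.or_eq_true, decide_eq_true_iff] at h1 h2
      omega
    · rw [f0]
      simp
    · rw [g1]
      simp
  rw [g0, L3_eq]
  simp

theorem bw_congr {R : List ℕ} {B B' : ℕ → List ℕ} (h : ∀ r ∈ R, B r = B' r) :
    Bw R B = Bw R B' := by
  unfold Bw
  apply List.flatMap_congr
  intro r hr
  rw [h r hr]

theorem mem_bw {R : List ℕ} {B : ℕ → List ℕ} {c : ℕ} :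
    c ∈ Bw R B ↔ ∃ r ∈ R, c ∈ B r ∨ c = 3 * r + 2 := by
  unfold Bw
  simp only [List.mem_flatMap, List.mem_append, List.mem_singleton]

/-- the order of two letters in the block `0` -/
theorem ord_X {l : List ℕ} (hl : l.Perm [0, 3, 6, 9]) {i j : ℕ} (hij : i < j) (hj : j ≤ 3) :
    (l.idxOf (3 * i) < l.idxOf (3 * j) ∧ l.flatMap (ph i i j) = [0, 3]) ∨
      (l.idxOf (3 * j) < l.idxOf (3 * i) ∧ l.flatMap (ph i i j) = [3, 0]) := by
  have hmem : ∀ c, c ∈ l ↔ ∃ a ≤ 3, c = 3 * a := by
    intro c
    rw [hl.mem_iff]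
    simp only [List.mem_cons, List.not_mem_nil, or_false]
    constructor
    · rintro (h | h | h | h)
      · exact ⟨0, by omega, by omega⟩
      · exact ⟨1, by omega, by omega⟩
      · exact ⟨2, by omega, by omega⟩
      · exact ⟨3, by omega, by omega⟩
    · rintro ⟨a, ha, rfl⟩
      omega
  refine ord (hl.nodup_iff.2 (by decide)) ((hmem _).2 ⟨i, by omega, rfl⟩)
    ((hmem _).2 ⟨j, hj, rfl⟩) (by omega) ?_ ?_ ?_
  · rw [ph_x, if_pos rfl]
  · rw [ph_x, if_neg (by omega), if_pos rfl]
  · intro c hc h1 h2
    obtain ⟨a, ha, rfl⟩ := (hmem c).1 hc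
    rw [ph_x, if_neg (by omega), if_neg (by omega)]

/-- **KPF** -/
theorem kpf (hDec : DecStmt) (hKp2 : Kp2Stmt) (hUni : UniStmt) : KpfStmt := by
  intro β H2 H3 m R G hm hR hG s w w' hF hw
  obtain ⟨hs, h, B, hGh, hB0, hB1, hBr, rfl⟩ := hF
  have hRn : R.Nodup := hR.nodup_iff.2 List.nodup_range
  have hRmem : ∀ r, r ∈ R ↔ r < m + 2 := fun r => by rw [hR.mem_iff, List.mem_range]
  have h0R : 0 ∈ R := (hRmem 0).2 (by omega)
  have h1R : 1 ∈ R := (hRmem 1).2 (by omega)
  have hhp : ∀ k < 3, (h k).Perm (List.range m) := fun k hk => hG.perm _ (hGh k hk)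
  have hB0p : (B 0).Perm [0, 3, 6, 9] := by
    rw [hB0]
    exact hs.map (fun i => 3 * i)
  have cB : ∀ q ∈ R, ∀ c, (B q).count c =
      if q = 0 then (if c % 3 = 0 ∧ c < 12 then 1 else 0)
      else if q = 1 then (if (c % 3 = 0 ∧ c < 12) ∨ (c % 3 = 1 ∧ c / 9 < m) then 1 else 0)
      else (if c % 3 = 1 ∧ c / 9 = q - 2 then 1 else 0) := by
    intro q hq c
    by_cases h0 : q = 0
    · subst h0
      rw [if_pos rfl]
      exact count_X hB0p c
    · rw [if_neg h0]
      by_cases h1 : q = 1
      · subst h1
        rw [if_pos rfl, hB1]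
        exact count_L3 hhp c
      · rw [if_neg h1]
        exact count_Z3 (hBr q hq (by omega)) c
  have hSB : ∀ r ∈ R, SFr (B r) := by
    intro r hr c hc hc2
    have h1 := List.count_pos_iff.2 hc
    rw [cB r hr c] at h1
    split_ifs at h1 <;> omega
  obtain ⟨B', e, hSB', hSe, rfl⟩ := hDec β H3 R B w' hRn hSB hw
  have hcnt : ∀ c, c % 3 ≠ 2 → (∀ q ∈ R, (B' q).count c = (B q).count c) ∧ e.count c = 0 := by
    intro c hc
    by_cases hA : c % 3 = 0 ∧ c < 12
    · have hq : ∀ q ∈ R, (B q).count c = if q = 0 ∨ q = 1 then 1 else 0 := by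
        intro q hq
        rw [cB q hq c]
        by_cases h0 : q = 0
        · rw [if_pos h0, if_pos hA, if_pos (Or.inl h0)]
        · rw [if_neg h0]
          by_cases h1 : q = 1
          · rw [if_pos h1, if_pos (Or.inl hA), if_pos (Or.inr h1)]
          · rw [if_neg h1, if_neg (by omega), if_neg (by omega)]
      have h1 := hKp2 β H2 H3 R B B' e hRn hSB (fun r _ => hSB' r) hSe hw c 0 1 hc h0R h1R
        (by omega) hq
      exact ⟨fun q hqR => by rw [h1.1 q hqR, hq q hqR], h1.2⟩
    · by_cases hC : c % 3 = 1 ∧ c / 9 < m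
      · have hq : ∀ q ∈ R, (B q).count c = if q = 1 ∨ q = c / 9 + 2 then 1 else 0 := by
          intro q hq
          rw [cB q hq c]
          by_cases h0 : q = 0
          · rw [if_pos h0, if_neg hA, if_neg (by omega)]
          · rw [if_neg h0]
            by_cases h1 : q = 1
            · rw [if_pos h1, if_pos (Or.inr hC), if_pos (Or.inl h1)]
            · rw [if_neg h1]
              by_cases h2 : q = c / 9 + 2
              · rw [if_pos ⟨hC.1, by omega⟩, if_pos (Or.inr h2)]
              · rw [if_neg (by omega), if_neg (by omega)]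
        have h1 := hKp2 β H2 H3 R B B' e hRn hSB (fun r _ => hSB' r) hSe hw c 1 (c / 9 + 2) hc h1R
          ((hRmem _).2 (by omega)) (by omega) hq
        exact ⟨fun q hqR => by rw [h1.1 q hqR, hq q hqR], h1.2⟩
      · have hz : ∀ q ∈ R, (B q).count c = 0 := by
          intro q hq
          rw [cB q hq c]
          have hq2 := (hRmem q).1 hq
          by_cases h0 : q = 0
          · rw [if_pos h0, if_neg hA]
          · rw [if_neg h0]
            by_cases h1 : q = 1
            · rw [if_pos h1, if_neg (by omega)]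
            · rw [if_neg h1, if_neg (by omega)]
        have hnot : c ∉ Bw R B := by
          rw [mem_bw]
          rintro ⟨r, hr, h1 | h1⟩
          · exact List.count_eq_zero.1 (hz r hr) h1
          · omega
        have h1 := RR.content H3 hw hnot
        rw [List.mem_append, not_or, mem_bw] at h1
        refine ⟨fun q hq => ?_, List.count_eq_zero.2 h1.2⟩
        rw [hz q hq, List.count_eq_zero]
        intro h2
        exact h1.1 ⟨q, hq, Or.inl h2⟩
  have he : e = [] := by
    rw [List.eq_nil_iff_forall_not_mem]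
    intro c hc
    exact List.count_eq_zero.1 (hcnt c (hSe c hc)).2 hc
  have hperm : ∀ q ∈ R, (B' q).Perm (B q) := by
    intro q hq
    rw [List.perm_iff_count]
    intro c
    by_cases hc : c % 3 = 2
    · rw [List.count_eq_zero.2 (fun h => hSB' q c h hc), List.count_eq_zero.2
        (fun h => hSB q hq c h hc)]
    · exact (hcnt c hc).1 q hq
  subst he
  rw [List.append_nil] at hw ⊢
  have key : ∀ k i j, i ≤ k → k < j → j ≤ 3 → ∃ h', G h' ∧
      (B' 0).flatMap (ph k i j) = (B 0).flatMap (ph k i j) ∧
        (B' 1).flatMap (ph k i j) = 0 :: (zs h' ++ [3]) := by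
    intro k i j hik hkj hj
    have hX := X_flatMap hB0p (k := k) (i := i) (j := j) (by omega) hj
    have himg : (Bw R B).flatMap (ph k i j) = Ew R (h k) ((B 0).flatMap (ph k i j)) := by
      rw [bw_flatMap]
      unfold Ew Eg
      apply bw_congr
      intro r hr
      by_cases h0 : r = 0
      · rw [if_pos h0, h0]
      · rw [if_neg h0]
        by_cases h1 : r = 1
        · rw [if_pos h1, h1, hB1]
          exact L3_flatMap h hik hkj hj
        · rw [if_neg h1]
          exact Z3_flatMap (hBr r hr (by omega)) (by omega)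
    have hr := hw.sub (ph k i j)
    rw [himg] at hr
    obtain ⟨h', hGh', he⟩ := hG.cl (h k) _ _ (hGh k (by omega)) hX hr
    rw [bw_flatMap] at he
    unfold Ew Eg at he
    have hE : ∀ r ∈ R, SFr (if r = 0 then (B 0).flatMap (ph k i j) else
        if r = 1 then 0 :: (zs h' ++ [3]) else [3 * (r - 2) + 1]) := by
      intro r hr c hc
      split_ifs at hc
      · rcases hX with hX | hX
        · rw [hX] at hc
          simp only [List.mem_cons, List.not_mem_nil, or_false] at hc
          omega
        · rw [hX] at hc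
          simp only [List.mem_cons, List.not_mem_nil, or_false] at hc
          omega
      · simp only [zs, List.mem_cons, List.mem_append, List.mem_map, List.not_mem_nil,
          or_false] at hc
        rcases hc with hc | ⟨a, _, hc⟩ | hc <;> omega
      · simp only [List.mem_cons, List.not_mem_nil, or_false] at hc
        omega
    have hU := hUni R (fun r => (B' r).flatMap (ph k i j)) (fun r => if r = 0 then
      (B 0).flatMap (ph k i j) else if r = 1 then 0 :: (zs h' ++ [3]) else [3 * (r - 2) + 1])
      [] [] hRn (fun r _ => ph_sfr (hSB' r)) hE (by intro c hc; simp at hc)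
      (by intro c hc; simp at hc) (by rw [he])
    have hU0 := hU.1 0 h0R
    have hU1 := hU.1 1 h1R
    exact ⟨h', hGh', by simpa using hU0, by simpa using hU1⟩
  -- block `0`
  have hB'0p : (B' 0).Perm [0, 3, 6, 9] := (hperm 0 h0R).trans hB0p
  have hidx : ∀ i j, i < j → j ≤ 3 →
      (((B 0).idxOf (3 * i) < (B 0).idxOf (3 * j) ↔
        (B' 0).idxOf (3 * i) < (B' 0).idxOf (3 * j)) ∧
      ((B 0).idxOf (3 * j) < (B 0).idxOf (3 * i) ↔
        (B' 0).idxOf (3 * j) < (B' 0).idxOf (3 * i))) := by
    intro i j hij hj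
    obtain ⟨h', _, h1, _⟩ := key i i j (le_refl i) hij hj
    have o1 := ord_X hB0p hij hj
    have o2 := ord_X hB'0p hij hj
    rw [h1] at o2
    rcases o1 with ⟨i1, e1⟩ | ⟨i1, e1⟩ <;> rcases o2 with ⟨i2, e2⟩ | ⟨i2, e2⟩
    · constructor <;> constructor <;> intro _ <;> omega
    · rw [e1] at e2
      simp at e2
    · rw [e1] at e2
      simp at e2
    · constructor <;> constructor <;> intro _ <;> omega
  have hB'0 : B' 0 = B 0 := by
    refine eq_of_idx (hB0p.nodup_iff.2 (by decide)) (hperm 0 h0R) ?_
    intro a ha b hb hab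
    rw [hB0p.mem_iff] at ha hb
    simp only [List.mem_cons, List.not_mem_nil, or_false] at ha hb
    obtain ⟨i, hi, rfl⟩ : ∃ i ≤ 3, a = 3 * i := ⟨a / 3, by omega, by omega⟩
    obtain ⟨j, hj, rfl⟩ : ∃ j ≤ 3, b = 3 * j := ⟨b / 3, by omega, by omega⟩
    rcases Nat.lt_or_ge i j with hij | hij
    · exact (hidx i j hij hj).1
    · exact (hidx j i (by omega) hi).2
  -- block `1`
  obtain ⟨h0, g0, -, e0⟩ := key 0 0 1 (by omega) (by omega) (by omega)
  obtain ⟨h1, g1, -, e1⟩ := key 1 1 2 (by omega) (by omega) (by omega)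
  obtain ⟨h2, g2, -, e2⟩ := key 2 2 3 (by omega) (by omega) (by omega)
  have hn1 : (B' 1).Nodup := by
    rw [List.nodup_iff_count_le_one]
    intro c
    rw [(hperm 1 h1R).count_eq, cB 1 h1R c, if_neg (by omega), if_pos rfl]
    split_ifs <;> omega
  have hB'1 : B' 1 = L3 (fun k => if k = 0 then h0 else if k = 1 then h1 else h2) := by
    refine main_block (m := m) hn1 ?_ ?_
    · intro c hc
      have h3 : 0 < (B 1).count c := by
        rw [← (hperm 1 h1R).count_eq]
        exact List.count_pos_iff.2 hc
      rw [cB 1 h1R c, if_neg (by omega), if_pos rfl] at h3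
      by_contra hcon
      rw [if_neg hcon] at h3
      omega
    · intro k hk
      interval_cases k
      · simpa using e0
      · simpa using e1
      · simpa using e2
  refine ⟨hs, fun k => if k = 0 then h0 else if k = 1 then h1 else h2, B', ?_, ?_, hB'1, ?_, rfl⟩
  · intro k hk
    interval_cases k
    · simpa using g0
    · simpa using g1
    · simpa using g2
  · rw [hB'0, hB0]
  · intro r hr h2
    exact (hperm r hr).trans (hBr r hr h2)

end Pool.Agent.MVK.C23
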