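import Pool.Agent.MVK.Stmts

/-!
Adaptation of `Helper31_MVD/PEF.lean` to central squares (`CQ` instead of `Iso2`).
-/

set_option autoImplicit false

namespace Pool.Agent.MVK.C31

open Pool.Agent.Helper14_MV Pool.Agent.Helper2_MV Pool.Agent.MVD

theorem sfr_zs (D : List ℕ) : SFr (zs D) := by
  intro c hc
  unfold zs at hc
  obtain ⟨e, -, rfl⟩ := List.mem_map.1 hc
  omega

theorem sfr_L3 (h : ℕ → List ℕ) : SFr (L3 h) := by
  intro c hc
  unfold L3 at hc
  simp only [List.mem_cons, List.mem_append, List.not_mem_nil, or_false] at hc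
  rcases hc with rfl | hc | rfl | hc | rfl | hc | rfl
  · decide
  · exact sfr_zs _ c hc
  · decide
  · exact sfr_zs _ c hc
  · decide
  · exact sfr_zs _ c hc
  · decide

theorem sfr_Z3 (r : ℕ) : SFr (Z3 r) := by
  intro c hc
  unfold Z3 at hc
  simp only [List.mem_cons, List.not_mem_nil, or_false] at hc
  rcases hc with rfl | rfl | rfl <;> omega

theorem fam_sfr {R : List ℕ} {s : List ℕ} {h B : ℕ → List ℕ}
    (h0 : B 0 = s.map (fun i => 3 * i)) (h1 : B 1 = L3 h)
    (h2 : ∀ r ∈ R, 2 ≤ r → (B r).Perm (Z3 r)) : ∀ r ∈ R, SFr (B r) := by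
  intro r hr
  rcases Nat.lt_or_ge r 2 with hlt | hge
  · interval_cases r
    · rw [h0]
      intro c hc
      obtain ⟨e, -, rfl⟩ := List.mem_map.1 hc
      omega
    · rw [h1]
      exact sfr_L3 h
  · intro c hc
    exact sfr_Z3 r c ((h2 r hr hge).mem_iff.1 hc)

theorem fam_uniq (uni : UniStmt) {m : ℕ} {R : List ℕ} {G : List ℕ → Prop}
    (hR : R.Perm (List.range (m + 2))) {s s' w : List ℕ} (hs : Fam R G s w)
    (hs' : Fam R G s' w) : s = s' := by
  obtain ⟨-, h, B, -, h0, h1, h2, hw⟩ := hs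
  obtain ⟨-, h', B', -, h0', h1', h2', hw'⟩ := hs'
  have hn : R.Nodup := hR.nodup_iff.2 List.nodup_range
  have hu := uni R B B' [] [] hn (fam_sfr h0 h1 h2) (fam_sfr h0' h1' h2')
    (fun c hc => by simp at hc) (fun c hc => by simp at hc)
    (by rw [List.append_nil, List.append_nil, ← hw, hw'])
  have h3 : (0 : ℕ) ∈ R := hR.mem_iff.2 (List.mem_range.2 (by omega))
  have h4 := hu.1 0 h3
  rw [h0, h0'] at h4
  have hinj : Function.Injective (fun i : ℕ => 3 * i) := fun a b hab => by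
    have : 3 * a = 3 * b := hab
    omega
  exact List.map_injective_iff.2 hinj h4

/-- the property -/
def PQ (R : List ℕ) (G : List ℕ → Prop) (c : ℕ → Prop) (w : Word) : Prop :=
  ∃ s, Fam R G s w.toList ∧ c (cls s)

/-- the largest fully invariant congruence which keeps the family and the value of `k` at the
class -/
def FQ (R : List ℕ) (G : List ℕ → Prop) (k : ℕ → ℕ) : FIC where
  r := fun u v => ∀ c : ℕ, (gam (PQ R G (fun j => k j = c))).r u v
  refl := fun _ _ => FIC.refl _ _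
  symm := fun h c => FIC.symm _ (h c)
  trans := fun h h' c => FIC.trans _ (h c) (h' c)
  mul := fun h h' c => FIC.mul _ (h c) (h' c)
  sub := fun φ _ _ h c => FIC.sub _ φ (h c)

theorem FQ.keep {R : List ℕ} {G : List ℕ → Prop} {k : ℕ → ℕ} {u v : Word}
    (h : (FQ R G k).r u v) (c : ℕ) :
    PQ R G (fun j => k j = c) u ↔ PQ R G (fun j => k j = c) v := by
  have := h c (MonoidHom.id _) 1 1
  simpa using this

theorem le_FQ (kpf : KpfStmt) {β : FIC} (H2 : CQ β) (H : Iso3 β) {m : ℕ} {R : List ℕ}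
    {G : List ℕ → Prop} (hm1 : 1 ≤ m) (hR : R.Perm (List.range (m + 2))) (hG : GOk β m R G)
    (k : ℕ → ℕ) : β ≤ FQ R G k := by
  have key : ∀ (w w' : Word) (c : ℕ → Prop), β.r w w' → PQ R G c w → PQ R G c w' := by
    rintro w w' c hw ⟨s, hF, hc⟩
    have hr : RR β w.toList w'.toList := hw
    exact ⟨s, kpf β H2 H m R G hm1 hR hG s _ _ hF hr, hc⟩
  intro u v huv c φ p q
  have h3 : β.r (p * φ u * q) (p * φ v * q) := β.mul (β.mul (β.refl p) (β.sub φ huv)) (β.refl q)
  exact ⟨key _ _ _ h3, key _ _ _ (β.symm h3)⟩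

/-- the words of the pentagon -/
def wf (R c0 : List ℕ) (s : List ℕ) : Word := FreeMonoid.ofList (Fw R s c0)

theorem wf_rel (stf : StfStmt) {m : ℕ} {R : List ℕ} {G : List ℕ → Prop} {c0 : List ℕ}
    (hm1 : 1 ≤ m) (hR : R.Perm (List.range (m + 2)))
    (hG : ∀ h, G h → h.Perm (List.range m)) (hc0 : G c0) {s s' : List ℕ}
    (hs : s.Perm [0, 1, 2, 3]) (hs' : s'.Perm [0, 1, 2, 3]) (hchk : chk s s' = true)
    (hchk' : chk s' s = true) (k : ℕ → ℕ) (hk : k (cls s) = k (cls s')) :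
    (FQ R G k).r (wf R c0 s) (wf R c0 s') := by
  intro c φ p q
  have e : ∀ t : List ℕ, (p * φ (wf R c0 t) * q).toList =
      p.toList ++ ((Fw R t c0).flatMap (fun i => (φ (FreeMonoid.of i)).toList) ++
        q.toList) := by
    intro t
    rw [FreeMonoid.toList_mul, FreeMonoid.toList_mul, toList_hom, List.append_assoc]
    rfl
  constructor
  · rintro ⟨t, h1, h2⟩
    rw [e] at h1
    obtain ⟨t', h3, h4⟩ := stf m R G c0 hm1 hR hG hc0 s s' hs hs' hchk _ _ _ t h1
    refine ⟨t', by rw [e]; exact h3, ?_⟩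
    rcases h4 with h4 | ⟨rfl, rfl⟩
    · show k (cls t') = c
      rw [h4]
      exact h2
    · show k (cls t') = c
      rw [← hk]
      exact h2
  · rintro ⟨t, h1, h2⟩
    rw [e] at h1
    obtain ⟨t', h3, h4⟩ := stf m R G c0 hm1 hR hG hc0 s' s hs' hs hchk' _ _ _ t h1
    refine ⟨t', by rw [e]; exact h3, ?_⟩
    rcases h4 with h4 | ⟨rfl, rfl⟩
    · show k (cls t') = c
      rw [h4]
      exact h2
    · show k (cls t') = c
      rw [hk]
      exact h2

theorem fam_wf {R : List ℕ} {G : List ℕ → Prop} {c0 : List ℕ} (hc0 : G c0) {s : List ℕ}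
    (hs : s.Perm [0, 1, 2, 3]) : Fam R G s (wf R c0 s).toList := by
  refine ⟨hs, fun _ => c0, _, fun _ _ => hc0, ?_, ?_, ?_, rfl⟩
  · rfl
  · rfl
  · intro r _ hr
    have h0 : r ≠ 0 := by omega
    have h1 : r ≠ 1 := by omega
    simp only [h0, h1, if_false]
    exact List.Perm.refl _

/-- **PEF** -/
theorem pef (kpf : KpfStmt) (stf : StfStmt) (uni : UniStmt) : PefStmt := by
  intro β hm H2 H m R G c0 hm1 hR hG hc0
  have p0 : ([1, 3, 0, 2] : List ℕ).Perm [0, 1, 2, 3] := by decide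
  have p1 : ([2, 0, 3, 1] : List ℕ).Perm [0, 1, 2, 3] := by decide
  have p2 : ([0, 1, 2, 3] : List ℕ).Perm [0, 1, 2, 3] := List.Perm.refl _
  have p3 : ([3, 2, 1, 0] : List ℕ).Perm [0, 1, 2, 3] := by decide
  have hle : FQ R G kr ≤ FQ R G kt := by
    intro u v h c φ p q
    have e : ∀ w : Word, PQ R G (fun j => kt j = c) w ↔
        (∃ d, (∃ j, kr j = d ∧ kt j = c) ∧ PQ R G (fun j => kr j = d) w) := by
      intro w
      constructor
      · rintro ⟨s, hb, hc⟩
        exact ⟨kr (cls s), ⟨_, rfl, hc⟩, s, hb, rfl⟩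
      · rintro ⟨d, ⟨j, hj1, hj2⟩, s, hb, hd⟩
        refine ⟨s, hb, ?_⟩
        have : kt (cls s) = kt j := by
          have h3 : kr (cls s) = kr j := by rw [hj1]; exact hd
          have h4 : ∀ i, kt i = if kr i = 0 then 0 else 2 := by
            intro i
            unfold kt kr
            by_cases h5 : i = 1
            · simp [h5]
            · by_cases h6 : i = 0
              · simp [h6]
              · simp [h5, h6]
          rw [h4, h4 j, h3]
        show kt (cls s) = c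
        rw [this, hj2]
    rw [e, e]
    constructor
    · rintro ⟨d, hd, hP⟩
      exact ⟨d, hd, (h d φ p q).1 hP⟩
    · rintro ⟨d, hd, hP⟩
      exact ⟨d, hd, (h d φ p q).2 hP⟩
  have s20 := wf_rel stf hm1 hR hG.perm hc0 p2 p0 chk20 chk02 ks (by decide)
  have s01 := wf_rel stf hm1 hR hG.perm hc0 p0 p1 chk01 chk10 kr (by decide)
  have s13 := wf_rel stf hm1 hR hG.perm hc0 p1 p3 chk13 chk31 ks (by decide)
  have s23 := wf_rel stf hm1 hR hG.perm hc0 p2 p3 chk23 chk32 kt (by decide)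
  have hsup : (FIC.sup (FQ R G kr) (FQ R G ks)).r (wf R c0 [0, 1, 2, 3])
      (wf R c0 [3, 2, 1, 0]) := by
    have a1 := FIC.le_sup_right (FQ R G kr) (FQ R G ks) _ _ s20
    have a2 := FIC.le_sup_left (FQ R G kr) (FQ R G ks) _ _ s01
    have a3 := FIC.le_sup_right (FQ R G kr) (FQ R G ks) _ _ s13
    exact FIC.trans _ (FIC.trans _ a1 a2) a3
  have hfin := hm (FQ R G kr) (FQ R G ks) (FQ R G kt)
    (le_FQ kpf H2 H hm1 hR hG kr) (le_FQ kpf H2 H hm1 hR hG ks)
    (le_FQ kpf H2 H hm1 hR hG kt) hle _ _ hsup s23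
  have hinv : ∀ w w' : Word, (FIC.sup (FQ R G kr)
      (FIC.inf (FQ R G ks) (FQ R G kt))).r w w' →
      PQ R G (fun j => j = 2) w → PQ R G (fun j => j = 2) w' := by
    intro w w' h
    induction h with
    | refl => exact id
    | tail _ h3 ih =>
      intro hw
      obtain ⟨s, hs, hc⟩ := ih hw
      have hc2 : cls s = 2 := hc
      rcases h3 with h3 | h3
      · obtain ⟨s1, g1, g2⟩ := (FQ.keep h3 2).1 ⟨s, hs, by
          show kr _ = 2
          rw [hc2]; rfl⟩
        exact ⟨s1, g1, kr_two g2⟩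
      · obtain ⟨h3s, h3t⟩ := h3
        obtain ⟨s1, g1, g2⟩ := (FQ.keep h3s 0).1 ⟨s, hs, by
          show ks _ = 0
          rw [hc2]; rfl⟩
        obtain ⟨s2, g3, g4⟩ := (FQ.keep h3t 2).1 ⟨s, hs, by
          show kt _ = 2
          rw [hc2]; rfl⟩
        have hss := fam_uniq uni hR g1 g3
        subst hss
        exact ⟨s1, g1, ks_kt g2 g4⟩
  obtain ⟨s, g1, g2⟩ := hinv _ _ hfin ⟨[0, 1, 2, 3], fam_wf hc0 p2, by
    show cls _ = 2
    decide⟩
  have h4 := fam_uniq uni hR g1 (fam_wf hc0 p3)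
  subst h4
  exact absurd g2 (by decide)

end Pool.Agent.MVK.C31
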