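import Pool.Agent.MVK.Stmts
import Pool.Agent.Helper10_MVD.PN2

/-!
Row PN2 of block K (copy of the last theorem of Helper10_MVD/PN2).
-/

namespace Pool.Agent.MVK.H20

open Pool.Agent.Helper14_MV Pool.Agent.Helper2_MV Pool.Agent.MVD Pool.Agent.MVD.H10

theorem pn2 (hShp : Pool.Agent.MVK.ShpStmt) (hPws : Pool.Agent.MVK.PwsStmt)
    (hKey : Pool.Agent.MVK.KeyStmt) : Pool.Agent.MVK.Pn2Stmt := by
  intro β hm H2 H3 P Q m h1m hPQ
  by_contra hcon
  have hHH : HH β P Q m := by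
    intro w' hw'
    by_contra hn
    exact hcon ⟨w', hw', fun h => hn h.2⟩
  have hCC : CC β P Q m := by
    intro w' hw'
    by_contra hn
    exact hcon ⟨w', hw', fun h => hn h.1⟩
  have hS := hShp β H2 H3 P Q m h1m hPQ hHH hCC
  have hP := hPws β H2 H3 P Q m h1m hPQ hHH hCC
  have hK := hKey β H2 H3 P Q m h1m hPQ hHH hCC
  have hle : TH β P Q m T1 ≤ TH β P Q m T2 := by
    have key : ∀ u v : Word, (∀ (g : Equiv.Perm (Fin 4)), PPn β P Q m T1 g u ↔
        PPn β P Q m T1 g v) → ∀ g, PPn β P Q m T2 g u → PPn β P Q m T2 g v := by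
      intro u v h g hu
      obtain ⟨k, hk, hs⟩ := hu
      have h1 : PPn β P Q m T1 (g * k) u := ⟨1, by decide +kernel, by rw [mul_one]; exact hs⟩
      obtain ⟨k', hk', hs'⟩ := (h (g * k)).1 h1
      exact ⟨k * k', T2_mul k hk k' (T1_sub k' hk'), by rw [← mul_assoc]; exact hs'⟩
    intro u v h g φ a b
    exact ⟨key _ _ (fun g' => h g' φ a b) g, key _ _ (fun g' => (h g' φ a b).symm) g⟩
  have r1 : RR (TH β P Q m TK) (pw P Q m 1) (pw P Q m gc) := by
    have := pw_rel hP hK TK_mul 1 gc gc_TK (TK_inv _ gc_TK)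
    rwa [one_mul] at this
  have r2 : RR (TH β P Q m T1) (pw P Q m gc) (pw P Q m (gc * ga)) :=
    pw_rel hP hK T1_mul gc ga ga_T1 (T1_inv _ ga_T1)
  have r3 : RR (TH β P Q m TK) (pw P Q m (gc * ga)) (pw P Q m (gc * ga * gc⁻¹)) :=
    pw_rel hP hK TK_mul (gc * ga) gc⁻¹ (TK_inv _ gc_TK) (by rw [inv_inv]; exact gc_TK)
  have r4 : RR (TH β P Q m T2) (pw P Q m 1) (pw P Q m (gc * ga * gc⁻¹)) := by
    have := pw_rel hP hK T2_mul 1 (gc * ga * gc⁻¹) gs_T2 (T2_inv _ gs_T2)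
    rwa [one_mul] at this
  have hsup : (FIC.sup (TH β P Q m T1) (TH β P Q m TK)).r (FreeMonoid.ofList (pw P Q m 1))
      (FreeMonoid.ofList (pw P Q m (gc * ga * gc⁻¹))) := by
    have a1 := FIC.le_sup_right (TH β P Q m T1) (TH β P Q m TK) _ _ r1
    have a2 := FIC.le_sup_left (TH β P Q m T1) (TH β P Q m TK) _ _ r2
    have a3 := FIC.le_sup_right (TH β P Q m T1) (TH β P Q m TK) _ _ r3
    exact FIC.trans _ (FIC.trans _ a1 a2) a3
  have hfin := hm (TH β P Q m T1) (TH β P Q m TK) (TH β P Q m T2)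
    (le_TH T1 hS) (le_TH TK hS) (le_TH T2 hS) hle _ _ hsup r4
  have hinv : ∀ w w' : Word, (FIC.sup (TH β P Q m T1)
      (FIC.inf (TH β P Q m TK) (TH β P Q m T2))).r w w' →
      PPn β P Q m T1 1 w → PPn β P Q m T1 1 w' := by
    intro w w' h
    induction h with
    | refl => exact id
    | tail _ h3 ih =>
      intro hw
      have hw' := ih hw
      rcases h3 with h3 | h3
      · exact (TH.keep h3 1).1 hw'
      · obtain ⟨h3s, h3t⟩ := h3
        obtain ⟨k, hk, hs⟩ := hw'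
        obtain ⟨k1, hk1, hs1⟩ := (TH.keep h3s (1 * k)).1 ⟨1, by decide +kernel, by
          rw [mul_one]; exact hs⟩
        obtain ⟨k2, hk2, hs2⟩ := (TH.keep h3t (1 * k)).1 ⟨1, by decide +kernel, by
          rw [mul_one]; exact hs⟩
        have e1 : k1 = k2 := mul_left_cancel (ss_inj hs1 hs2)
        have e2 : k1 = 1 := T_int k1 hk1 (by rw [e1]; exact hk2)
        rw [e2, mul_one] at hs1
        exact ⟨k, hk, hs1⟩
  obtain ⟨k, hk, hs⟩ := hinv _ _ hfin ⟨1, by decide +kernel, by rw [mul_one]; exact hP 1⟩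
  have e := ss_inj hs (hP (gc * ga * gc⁻¹))
  rw [one_mul] at e
  exact gs_T1 (e ▸ hk)

end Pool.Agent.MVK.H20
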