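import Pool.Agent.MVK.Stmts

/-!
Adaptation of `Helper28_MVD/PRP.lean` to central squares (`CQ` instead of `Iso2`).
-/

set_option autoImplicit false

namespace Pool.Agent.MVK.C28

open Pool.Agent.Helper14_MV Pool.Agent.Helper2_MV Pool.Agent.MVD

variable {β : FIC}

private theorem rrt {l1 l2 l3 : List ℕ} (h : RR β l1 l2) (h' : RR β l2 l3) : RR β l1 l3 :=
  β.trans h h'

/-! ### before -/

theorem bfr_iff {R : List ℕ} {a b : ℕ} : Bfr R a b ↔ List.Sublist [a, b] R := by
  constructor
  · rintro ⟨A, B, C, rfl⟩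
    refine List.sublist_append_of_sublist_right (List.Sublist.cons_cons a ?_)
    rw [List.singleton_sublist]
    simp
  · intro h
    rw [List.cons_sublist_iff] at h
    obtain ⟨r1, r2, rfl, ha, hb⟩ := h
    rw [List.singleton_sublist] at hb
    obtain ⟨A, B, rfl⟩ := List.append_of_mem ha
    obtain ⟨C, D, rfl⟩ := List.append_of_mem hb
    exact ⟨A, B ++ C, D, by simp⟩

theorem after_mem {R1 R2 : List ℕ} {x c : ℕ} (hx : x ∉ R1)
    (h : List.Sublist [x, c] (R1 ++ x :: R2)) : c ∈ R2 := by
  rw [List.sublist_append_iff] at h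
  obtain ⟨l1, l2, he, h1, h2⟩ := h
  cases l1 with
  | nil =>
    rw [List.nil_append] at he
    subst he
    rw [List.cons_sublist_cons] at h2
    exact List.singleton_sublist.1 h2
  | cons a l =>
    rw [List.cons_append, List.cons.injEq] at he
    exfalso
    apply hx
    rw [he.1]
    exact h1.subset (by simp)

theorem bfr_trans {l : List ℕ} (hn : l.Nodup) {a b c : ℕ} (h1 : Bfr l a b) (h2 : Bfr l b c) :
    Bfr l a c := by
  obtain ⟨A, B, C, rfl⟩ := h1
  have hb : b ∉ A ++ a :: B := by
    intro hmem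
    have : (A ++ a :: B ++ b :: C).Nodup := by simpa using hn
    rw [List.nodup_append] at this
    exact this.2.2 b hmem b (by simp) rfl
  have h3 : List.Sublist [b, c] ((A ++ a :: B) ++ b :: C) := by
    have := bfr_iff.1 h2
    simpa using this
  have hc := after_mem hb h3
  obtain ⟨C1, C2, rfl⟩ := List.append_of_mem hc
  exact ⟨A, B ++ b :: C1, C2, by simp⟩

theorem bfr_irrefl {l : List ℕ} (hn : l.Nodup) {a : ℕ} (h : Bfr l a a) : False := by
  have h1 := (bfr_iff.1 h).nodup hn
  simp at h1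

theorem bfr_asymm {l : List ℕ} (hn : l.Nodup) {a b : ℕ} (h1 : Bfr l a b) (h2 : Bfr l b a) :
    False := bfr_irrefl hn (bfr_trans hn h1 h2)

theorem bfr_head {l : List ℕ} {a b : ℕ} (h : b ∈ l) : Bfr (a :: l) a b := by
  rw [bfr_iff, List.cons_sublist_cons, List.singleton_sublist]
  exact h

theorem bfr_last {l : List ℕ} {a b : ℕ} (h : a ∈ l) : Bfr (l ++ [b]) a b := by
  rw [bfr_iff]
  have : List.Sublist ([a] ++ [b]) (l ++ [b]) :=
    List.Sublist.append (List.singleton_sublist.2 h) (List.Sublist.refl _)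
  exact this

theorem rg_symm {k1 k2 : Prop} (h : rg β k1 k2) : rg β k2 k1 := by
  obtain ⟨h1, h2, h3, h4⟩ := h
  exact ⟨fun a b => h1 b a, fun a b => h2 b a, fun a b => h4 b a, fun a b => h3 b a⟩

/-! ### blocks -/

/-- the blocks of `Ew` -/
private def Bk (X h : List ℕ) : ℕ → List ℕ :=
  fun r => if r = 0 then X else if r = 1 then 0 :: (zs h ++ [3]) else [3 * (r - 2) + 1]

private theorem ew_eq (R h X : List ℕ) : Ew R h X = Bw R (Bk X h) := rfl

theorem bw_congr {R : List ℕ} {B B' : ℕ → List ℕ} (h : ∀ r ∈ R, B r = B' r) :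
    Bw R B = Bw R B' := by
  unfold Bw
  induction R with
  | nil => rfl
  | cons a l ih =>
    rw [List.flatMap_cons, List.flatMap_cons, h a (by simp), ih (fun r hr => h r (by simp [hr]))]

theorem bw_append (R S : List ℕ) (B : ℕ → List ℕ) : Bw (R ++ S) B = Bw R B ++ Bw S B := by
  unfold Bw
  rw [List.flatMap_append]

theorem bw_cons (a : ℕ) (S : List ℕ) (B : ℕ → List ℕ) :
    Bw (a :: S) B = B a ++ [3 * a + 2] ++ Bw S B := by
  unfold Bw
  rw [List.flatMap_cons]

theorem mem_bw {R : List ℕ} {B : ℕ → List ℕ} {r a : ℕ} (hr : r ∈ R) (ha : a ∈ B r) :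
    a ∈ Bw R B := by
  unfold Bw
  rw [List.mem_flatMap]
  exact ⟨r, hr, by simp [ha]⟩

theorem mem_zs {h : List ℕ} {a : ℕ} : a ∈ zs h ↔ ∃ e ∈ h, a = 3 * e + 1 := by
  unfold zs
  rw [List.mem_map]
  constructor
  · rintro ⟨e, he, rfl⟩; exact ⟨e, he, rfl⟩
  · rintro ⟨e, he, rfl⟩; exact ⟨e, he, rfl⟩

theorem zs_append (a b : List ℕ) : zs (a ++ b) = zs a ++ zs b := by
  unfold zs
  rw [List.map_append]

theorem zs_cons (a : ℕ) (b : List ℕ) : zs (a :: b) = (3 * a + 1) :: zs b := by
  unfold zs
  rw [List.map_cons]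

theorem zs_inj : Function.Injective (fun e : ℕ => 3 * e + 1) := by
  intro a b h
  simp only at h
  omega

theorem zs_nodup {h : List ℕ} (hn : h.Nodup) : (zs h).Nodup := hn.map zs_inj

theorem bk1_nodup {h : List ℕ} (hn : h.Nodup) : (0 :: (zs h ++ [3])).Nodup := by
  rw [List.nodup_cons]
  refine ⟨?_, ?_⟩
  · intro hm
    rw [List.mem_append] at hm
    rcases hm with hm | hm
    · obtain ⟨e, _, he⟩ := mem_zs.1 hm
      omega
    · simp at hm
  · rw [List.nodup_append]
    refine ⟨zs_nodup hn, by simp, ?_⟩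
    intro a ha b hb hab
    obtain ⟨e, _, he⟩ := mem_zs.1 ha
    rw [List.mem_singleton] at hb
    omega

private theorem count_zs_mul (h : List ℕ) (a : ℕ) (ha : a % 3 ≠ 1) : (zs h).count a = 0 := by
  rw [List.count_eq_zero]
  intro hm
  obtain ⟨e, _, he⟩ := mem_zs.1 hm
  omega

private theorem cnt0 {X h : List ℕ} (hX : X = [0, 3] ∨ X = [3, 0]) (q : ℕ) :
    (Bk X h q).count 0 = if q = 1 ∨ q = 0 then 1 else 0 := by
  unfold Bk
  by_cases h0 : q = 0
  · subst h0
    rcases hX with rfl | rfl <;> simp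
  · by_cases h1 : q = 1
    · subst h1
      simp [List.count_cons, List.count_append, count_zs_mul h 0 (by norm_num)]
    · simp [h0, h1]

private theorem cnt3 {X h : List ℕ} (hX : X = [0, 3] ∨ X = [3, 0]) (q : ℕ) :
    (Bk X h q).count 3 = if q = 1 ∨ q = 0 then 1 else 0 := by
  unfold Bk
  by_cases h0 : q = 0
  · subst h0
    rcases hX with rfl | rfl <;> simp [List.count_cons]
  · by_cases h1 : q = 1
    · subst h1
      simp [List.count_cons, List.count_append, count_zs_mul h 3 (by norm_num)]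
    · have : (if 3 * (q - 2) + 1 = 3 then 1 else 0) = 0 := by
        rw [if_neg]; omega
      simp [h0, h1, List.count_cons]
      omega

private theorem cntz {X h : List ℕ} (hX : X = [0, 3] ∨ X = [3, 0]) (hn : h.Nodup) {e : ℕ}
    (he : e ∈ h) (q : ℕ) :
    (Bk X h q).count (3 * e + 1) = if q = 1 ∨ q = e + 2 then 1 else 0 := by
  unfold Bk
  by_cases h0 : q = 0
  · subst h0
    have e1 : ¬ (3 * e + 1 = 3) := by omega
    have e2 : ¬ (3 = 3 * e + 1) := by omega
    have e3 : ¬ (0 = 3 * e + 1) := by omega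
    rcases hX with rfl | rfl <;> simp [List.count_cons, e2]
  · by_cases h1 : q = 1
    · subst h1
      have hz : (zs h).count (3 * e + 1) = 1 :=
        List.count_eq_one_of_mem (zs_nodup hn) (mem_zs.2 ⟨e, he, rfl⟩)
      have e2 : ¬ (3 = 3 * e + 1) := by omega
      simp [List.count_cons, List.count_append, hz, e2]
    · by_cases h2 : q = e + 2
      · subst h2
        simp
      · have e2 : ¬ (3 * (q - 2) + 1 = 3 * e + 1) := by omega
        have e4 : ¬ (q - 2 = e) := by omega
        simp [h0, h1, h2, List.count_cons, e4]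

private theorem mem_bk {X h : List ℕ} (hX : X = [0, 3] ∨ X = [3, 0]) {q a : ℕ}
    (ha : a ∈ Bk X h q) : a = 0 ∨ a = 3 ∨ (∃ e, a = 3 * e + 1 ∧ (e ∈ h ∨ q = e + 2)) := by
  unfold Bk at ha
  by_cases h0 : q = 0
  · subst h0
    rcases hX with rfl | rfl
    · simp at ha
      rcases ha with h | h
      · exact Or.inl h
      · exact Or.inr (Or.inl h)
    · simp at ha
      rcases ha with h | h
      · exact Or.inr (Or.inl h)
      · exact Or.inl h
  · by_cases h1 : q = 1
    · subst h1
      rw [if_neg (by norm_num), if_pos rfl, List.mem_cons, List.mem_append] at ha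
      rcases ha with h | h | h
      · exact Or.inl h
      · obtain ⟨e, he, hea⟩ := mem_zs.1 h
        exact Or.inr (Or.inr ⟨e, hea, Or.inl he⟩)
      · exact Or.inr (Or.inl (by simpa using h))
    · rw [if_neg h0, if_neg h1, List.mem_singleton] at ha
      exact Or.inr (Or.inr ⟨q - 2, ha, Or.inr (by omega)⟩)

private theorem sfr_bk {X h : List ℕ} (hX : X = [0, 3] ∨ X = [3, 0]) (q : ℕ) :
    SFr (Bk X h q) := by
  intro a ha
  rcases mem_bk hX ha with h | h | ⟨e, he, _⟩ <;> omega

/-! ### words equivalent to `Ew R h X` -/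

private theorem blk_perm (hDec : DecStmt) (hKp2 : Kp2Stmt) (hI2 : CQ β) (hI3 : Iso3 β)
    {m : ℕ} {R h X w' : List ℕ} (hR : R.Perm (List.range (m + 2))) (hh : h.Perm (List.range m))
    (hX : X = [0, 3] ∨ X = [3, 0]) (hw : RR β (Bw R (Bk X h)) w') :
    ∃ B' : ℕ → List ℕ, (∀ r, SFr (B' r)) ∧ w' = Bw R B' ∧ ∀ q ∈ R, (B' q).Perm (Bk X h q) := by
  have hRn : R.Nodup := hR.nodup_iff.2 List.nodup_range
  have hhn : h.Nodup := hh.nodup_iff.2 List.nodup_range
  have hmem : ∀ r, r ∈ R ↔ r < m + 2 := fun r => by rw [hR.mem_iff, List.mem_range]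
  have hmh : ∀ r, r ∈ h ↔ r < m := fun r => by rw [hh.mem_iff, List.mem_range]
  obtain ⟨B', e, hB', he, rfl⟩ := hDec β hI3 R (Bk X h) w' hRn (fun r _ => sfr_bk hX r) hw
  have hk := hKp2 β hI2 hI3 R (Bk X h) B' e hRn (fun r _ => sfr_bk hX r) (fun r _ => hB' r) he hw
  have h0R : 0 ∈ R := (hmem 0).2 (by omega)
  have h1R : 1 ∈ R := (hmem 1).2 (by omega)
  have k0 := hk 0 1 0 (by norm_num) h1R h0R (by norm_num) (fun q _ => cnt0 hX q)
  have k3 := hk 3 1 0 (by norm_num) h1R h0R (by norm_num) (fun q _ => cnt3 hX q)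
  have kz : ∀ u < m, (∀ q ∈ R, (B' q).count (3 * u + 1) = if q = 1 ∨ q = u + 2 then 1 else 0) ∧
      e.count (3 * u + 1) = 0 := by
    intro u hu
    exact hk (3 * u + 1) 1 (u + 2) (by omega) h1R ((hmem _).2 (by omega)) (by omega)
      (fun q _ => cntz hX hhn ((hmh u).2 hu) q)
  -- letters
  have hlet : ∀ a, (a % 3 = 2) ∨ a = 0 ∨ a = 3 ∨ (∃ u < m, a = 3 * u + 1) ∨
      a ∉ Bw R (Bk X h) := by
    intro a
    by_cases ha : a ∈ Bw R (Bk X h)
    · unfold Bw at ha
      rw [List.mem_flatMap] at ha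
      obtain ⟨r, hr, har⟩ := ha
      rw [List.mem_append, List.mem_singleton] at har
      rcases har with har | har
      · rcases mem_bk hX har with h1 | h1 | ⟨u, hu, hu2⟩
        · exact Or.inr (Or.inl h1)
        · exact Or.inr (Or.inr (Or.inl h1))
        · refine Or.inr (Or.inr (Or.inr (Or.inl ⟨u, ?_, hu⟩)))
          rcases hu2 with h2 | h2
          · exact (hmh u).1 h2
          · have := (hmem r).1 hr
            omega
      · left
        omega
    · exact Or.inr (Or.inr (Or.inr (Or.inr ha)))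
  have hnot : ∀ a, a ∉ Bw R (Bk X h) → a ∉ Bw R B' ++ e := fun a ha => RR.content hI3 hw ha
  have hperm : ∀ q ∈ R, (B' q).Perm (Bk X h q) := by
    intro q hq
    rw [List.perm_iff_count]
    intro a
    rcases hlet a with ha | ha | ha | ⟨u, hu, ha⟩ | ha
    · rw [List.count_eq_zero.2 (fun hm => hB' q a hm ha),
        List.count_eq_zero.2 (fun hm => sfr_bk hX q a hm ha)]
    · rw [ha, k0.1 q hq, cnt0 hX q]
    · rw [ha, k3.1 q hq, cnt3 hX q]
    · rw [ha, (kz u hu).1 q hq, cntz hX hhn ((hmh u).2 hu) q]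
    · rw [List.count_eq_zero.2 (fun hm => ha (mem_bw hq hm)),
        List.count_eq_zero.2 (fun hm => hnot a ha (List.mem_append_left _ (mem_bw hq hm)))]
  have hen : e = [] := by
    rw [List.eq_nil_iff_forall_not_mem]
    intro a ha
    rcases hlet a with h1 | h1 | h1 | ⟨u, hu, h1⟩ | h1
    · exact he a ha h1
    · rw [h1] at ha
      exact (List.count_eq_zero.1 k0.2) ha
    · rw [h1] at ha
      exact (List.count_eq_zero.1 k3.2) ha
    · rw [h1] at ha
      exact (List.count_eq_zero.1 (kz u hu).2) ha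
    · exact hnot a h1 (List.mem_append_right _ ha)
  refine ⟨B', hB', ?_, hperm⟩
  rw [hen, List.append_nil]

/-- a list with first letter `0` and last letter `3` -/
private theorem shape {h l : List ℕ} (hhn : h.Nodup) (hp : l.Perm (0 :: (zs h ++ [3])))
    (h0 : ∀ u ∈ h, Bfr l 0 (3 * u + 1)) (h3 : ∀ u ∈ h, Bfr l (3 * u + 1) 3) (h03 : Bfr l 0 3) :
    ∃ h' : List ℕ, h'.Perm h ∧ l = 0 :: (zs h' ++ [3]) := by
  have hn : l.Nodup := hp.nodup_iff.2 (bk1_nodup hhn)
  have hl0 : 0 ∈ l := hp.mem_iff.2 (by simp)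
  obtain ⟨A, C, rfl⟩ := List.append_of_mem hl0
  have hcase : ∀ a ∈ A ++ 0 :: C, a = 0 ∨ a = 3 ∨ ∃ u ∈ h, a = 3 * u + 1 := by
    intro a ha
    have h1 := hp.mem_iff.1 ha
    rw [List.mem_cons, List.mem_append, List.mem_singleton] at h1
    rcases h1 with h1 | h1 | h1
    · exact Or.inl h1
    · exact Or.inr (Or.inr (mem_zs.1 h1))
    · exact Or.inr (Or.inl h1)
  have hA : A = [] := by
    rw [List.eq_nil_iff_forall_not_mem]
    intro a ha
    have hb : Bfr (A ++ 0 :: C) a 0 := by
      obtain ⟨A1, A2, rfl⟩ := List.append_of_mem ha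
      exact ⟨A1, A2, C, by simp⟩
    rcases hcase a (List.mem_append_left _ ha) with h1 | h1 | ⟨u, hu, h1⟩
    · rw [h1] at hb
      exact bfr_irrefl hn hb
    · rw [h1] at hb
      exact bfr_asymm hn hb h03
    · rw [h1] at hb
      exact bfr_asymm hn hb (h0 u hu)
  subst hA
  rw [List.nil_append] at *
  have hpc : C.Perm (zs h ++ [3]) := (List.perm_cons 0).1 hp
  have h3C : 3 ∈ C := hpc.mem_iff.2 (by simp)
  obtain ⟨D, E, rfl⟩ := List.append_of_mem h3C
  have hE : E = [] := by
    rw [List.eq_nil_iff_forall_not_mem]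
    intro a ha
    have hb : Bfr (0 :: (D ++ 3 :: E)) 3 a := by
      obtain ⟨E1, E2, rfl⟩ := List.append_of_mem ha
      exact ⟨0 :: D, E1, E2, by simp⟩
    have hb0 : Bfr (0 :: (D ++ 3 :: E)) 0 a := bfr_head (by simp [ha])
    rcases hcase a (by simp [ha]) with h1 | h1 | ⟨u, hu, h1⟩
    · rw [h1] at hb0
      exact bfr_irrefl hn hb0
    · rw [h1] at hb
      exact bfr_irrefl hn hb
    · rw [h1] at hb
      exact bfr_asymm hn hb (h3 u hu)
  subst hE
  have hpd : D.Perm (zs h) := by
    have := hpc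
    rw [List.perm_append_right_iff] at this
    exact this
  refine ⟨D.map (fun a => a / 3), ?_, ?_⟩
  · have h1 := hpd.map (fun a => a / 3)
    have h2 : (zs h).map (fun a => a / 3) = h := by
      unfold zs
      rw [List.map_map]
      have : ((fun a => a / 3) ∘ fun e : ℕ => 3 * e + 1) = id := by
        funext e
        simp only [Function.comp, id]
        omega
      rw [this, List.map_id]
    rw [h2] at h1
    exact h1
  · have h2 : zs (D.map (fun a => a / 3)) = D := by
      unfold zs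
      rw [List.map_map]
      have : ∀ a ∈ D, ((fun e : ℕ => 3 * e + 1) ∘ fun a => a / 3) a = a := by
        intro a ha
        obtain ⟨e, _, he⟩ := mem_zs.1 (hpd.mem_iff.1 ha)
        simp only [Function.comp]
        omega
      exact List.map_congr_left this |>.trans (List.map_id _)
    rw [h2]

/-- the order of the letters of the main block -/
private theorem bfr_zs {h : List ℕ} {u v : ℕ} (hb : Bfr h u v) :
    Bfr (0 :: (zs h ++ [3])) (3 * u + 1) (3 * v + 1) := by
  obtain ⟨A, B, C, rfl⟩ := hb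
  refine ⟨0 :: zs A, zs B, zs C ++ [3], ?_⟩
  rw [zs_append, zs_cons, zs_append, zs_cons]
  simp

private theorem bfr_zs' {h : List ℕ} {u v : ℕ}
    (hb : Bfr (0 :: (zs h ++ [3])) (3 * u + 1) (3 * v + 1)) : Bfr h u v := by
  rw [bfr_iff] at hb ⊢
  have h1 := hb.filter (fun a => decide (a % 3 = 1))
  have e1 : List.filter (fun a => decide (a % 3 = 1)) [3 * u + 1, 3 * v + 1] =
      [3 * u + 1, 3 * v + 1] := by
    rw [List.filter_eq_self]
    intro a ha
    simp only [List.mem_cons, List.not_mem_nil, or_false] at ha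
    rw [decide_eq_true_eq]
    omega
  have e2 : List.filter (fun a => decide (a % 3 = 1)) (0 :: (zs h ++ [3])) = zs h := by
    rw [List.filter_cons_of_neg (by simp), List.filter_append]
    have e3 : List.filter (fun a => decide (a % 3 = 1)) (zs h) = zs h := by
      rw [List.filter_eq_self]
      intro a ha
      obtain ⟨e, _, he⟩ := mem_zs.1 ha
      rw [decide_eq_true_eq]
      omega
    rw [e3, List.filter_cons_of_neg (by simp), List.filter_nil, List.append_nil]
  rw [e1, e2] at h1
  have h2 := h1.map (fun a => a / 3)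
  have e4 : (zs h).map (fun a => a / 3) = h := by
    unfold zs
    rw [List.map_map]
    have : ((fun a => a / 3) ∘ fun e : ℕ => 3 * e + 1) = id := by
      funext e
      simp only [Function.comp, id]
      omega
    rw [this, List.map_id]
  rw [e4] at h2
  have e5 : List.map (fun a => a / 3) [3 * u + 1, 3 * v + 1] = [u, v] := by
    simp only [List.map_cons, List.map_nil, List.cons.injEq, and_true]
    omega
  rw [e5] at h2
  exact h2

/-! ### exchanges -/

private theorem bw_split {R1 R2 X l : List ℕ} (h1 : 1 ∉ R1) (h2 : 1 ∉ R2) :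
    Bw (R1 ++ 1 :: R2) (Bk X l) =
      Bw R1 (Bk X []) ++ ((0 :: (zs l ++ [3])) ++ ([5] ++ Bw R2 (Bk X []))) := by
  have e : ∀ r, r ≠ 1 → Bk X l r = Bk X [] r := by
    intro r hr
    unfold Bk
    rw [if_neg hr, if_neg hr]
  rw [bw_append, bw_cons, bw_congr (R := R1) (fun r hr => e r (fun h => h1 (h ▸ hr))),
    bw_congr (R := R2) (fun r hr => e r (fun h => h2 (h ▸ hr)))]
  have e1 : Bk X l 1 = 0 :: (zs l ++ [3]) := by
    unfold Bk
    rw [if_neg (by norm_num), if_pos rfl]
  rw [e1]
  simp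

private theorem swap (hCtx : CtxStmt) {m : ℕ} {R : List ℕ} (hR : R.Perm (List.range (m + 2)))
    {A C X : List ℕ} {u v : ℕ} (hu : u < m) (hv : v < m)
    (hr : ¬ rg β (Bfr R (u + 2) 1) (Bfr R (v + 2) 1)) :
    RR β (Bw R (Bk X (A ++ u :: v :: C))) (Bw R (Bk X (A ++ v :: u :: C))) := by
  have hRn : R.Nodup := hR.nodup_iff.2 List.nodup_range
  have hmem : ∀ r, r ∈ R ↔ r < m + 2 := fun r => by rw [hR.mem_iff, List.mem_range]
  have h1R : 1 ∈ R := (hmem 1).2 (by omega)
  obtain ⟨R1, R2, rfl⟩ := List.append_of_mem h1R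
  have hn1 : 1 ∉ R1 := by
    intro h
    rw [List.nodup_append] at hRn
    exact hRn.2.2 1 h 1 (by simp) rfl
  have hn2 : 1 ∉ R2 := by
    rw [List.nodup_append, List.nodup_cons] at hRn
    exact hRn.2.1.1
  have ha : ∀ e, Bfr (R1 ++ 1 :: R2) (e + 2) 1 → e + 2 ∈ R1 := by
    intro e he
    by_contra hne
    rw [bfr_iff, List.sublist_append_iff] at he
    obtain ⟨l1, l2, h1, h2, h3⟩ := he
    cases l1 with
    | nil =>
      rw [List.nil_append] at h1
      subst h1
      have h4 : List.Sublist [e + 2, 1] R2 := by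
        rcases List.sublist_cons_iff.1 h3 with h5 | ⟨r, h5, h6⟩
        · exact h5
        · rw [List.cons.injEq] at h5
          omega
      exact hn2 (h4.subset (by simp))
    | cons a l =>
      rw [List.cons_append, List.cons.injEq] at h1
      apply hne
      rw [h1.1]
      exact h2.subset (by simp)
  have hb : ∀ e < m, ¬ Bfr (R1 ++ 1 :: R2) (e + 2) 1 → e + 2 ∈ R2 := by
    intro e he hne
    have h1 := (hmem (e + 2)).2 (by omega)
    rw [List.mem_append, List.mem_cons] at h1
    rcases h1 with h1 | h1 | h1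
    · exfalso
      apply hne
      obtain ⟨a, b, rfl⟩ := List.append_of_mem h1
      exact ⟨a, b, R2, by simp⟩
    · omega
    · exact h1
  have hP : ∀ e, e + 2 ∈ R1 → 3 * e + 1 ∈ Bw R1 (Bk X []) := by
    intro e he
    refine mem_bw he ?_
    unfold Bk
    rw [if_neg (by omega), if_neg (by omega)]
    simp
  have hQ : ∀ e, e + 2 ∈ R2 → 3 * e + 1 ∈ Bw R2 (Bk X []) := by
    intro e he
    refine mem_bw he ?_
    unfold Bk
    rw [if_neg (by omega), if_neg (by omega)]
    simp
  have key : RR β ((Bw R1 (Bk X []) ++ 0 :: zs A) ++ (3 * u + 1) :: (3 * v + 1) ::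
      (zs C ++ ([3] ++ ([5] ++ Bw R2 (Bk X [])))))
      ((Bw R1 (Bk X []) ++ 0 :: zs A) ++ (3 * v + 1) :: (3 * u + 1) ::
      (zs C ++ ([3] ++ ([5] ++ Bw R2 (Bk X []))))) := by
    obtain ⟨c1, c2, c3⟩ := hCtx β
    have hp : ∀ e, e + 2 ∈ R1 → 3 * e + 1 ∈ Bw R1 (Bk X []) ++ 0 :: zs A :=
      fun e he => List.mem_append_left _ (hP e he)
    have hq : ∀ e, e + 2 ∈ R2 → 3 * e + 1 ∈ zs C ++ ([3] ++ ([5] ++ Bw R2 (Bk X []))) :=
      fun e he => List.mem_append_right _ (List.mem_append_right _
        (List.mem_append_right _ (hQ e he)))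
    by_cases ku : Bfr (R1 ++ 1 :: R2) (u + 2) 1
    · by_cases kv : Bfr (R1 ++ 1 :: R2) (v + 2) 1
      · by_cases h3 : S3 β
        · exact c3 h3 _ _ _ _ (hp u (ha u ku)) (hp v (ha v kv))
        · exfalso
          apply hr
          exact ⟨fun _ _ => h3, fun h _ => absurd ku h, fun _ h => absurd kv h,
            fun h _ => absurd ku h⟩
      · by_cases h2 : S2 β
        · exact c2 h2 _ _ _ _ (hp u (ha u ku)) (hq v (hb v hv kv))
        · exfalso
          apply hr
          exact ⟨fun _ h => absurd h kv, fun h _ => absurd ku h, fun _ _ => h2,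
            fun h _ => absurd ku h⟩
    · by_cases kv : Bfr (R1 ++ 1 :: R2) (v + 2) 1
      · by_cases h2 : S2 β
        · exact (c2 h2 _ _ _ _ (hp v (ha v kv)) (hq u (hb u hu ku))).symm
        · exfalso
          apply hr
          exact ⟨fun h _ => absurd h ku, fun _ h => absurd kv h, fun h _ => absurd h ku,
            fun _ _ => h2⟩
      · by_cases h1 : S1 β
        · exact c1 h1 _ _ _ _ (hq u (hb u hu ku)) (hq v (hb v hv kv))
        · exfalso
          apply hr
          exact ⟨fun h _ => absurd h ku, fun _ _ => h1, fun h _ => absurd h ku,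
            fun _ h => absurd h kv⟩
  rw [bw_split hn1 hn2, bw_split hn1 hn2]
  have e1 : ∀ a b : ℕ, Bw R1 (Bk X []) ++ (0 :: (zs (A ++ a :: b :: C) ++ [3]) ++
      ([5] ++ Bw R2 (Bk X []))) = (Bw R1 (Bk X []) ++ 0 :: zs A) ++ (3 * a + 1) ::
      (3 * b + 1) :: (zs C ++ ([3] ++ ([5] ++ Bw R2 (Bk X [])))) := by
    intro a b
    rw [zs_append, zs_cons, zs_cons]
    simp
  rw [e1, e1]
  exact key

/-- **PRP** -/
theorem prp (hPef : PefStmt) (hDec : DecStmt) (hKp2 : Kp2Stmt) (hOrd : OrdStmt)
    (hTrc : TrcStmt) (hCtx : CtxStmt) : PrpStmt := by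
  intro β hMod hI2 hI3 m R c hR hc hhead hlast hS2
  by_contra hneg
  have hRn : R.Nodup := hR.nodup_iff.2 List.nodup_range
  have hcn : c.Nodup := hc.nodup_iff.2 List.nodup_range
  have hmem : ∀ r, r ∈ R ↔ r < m + 2 := fun r => by rw [hR.mem_iff, List.mem_range]
  have hmc : ∀ r, r ∈ c ↔ r < m := fun r => by rw [hc.mem_iff, List.mem_range]
  have h0R : 0 ∈ R := (hmem 0).2 (by omega)
  have h1R : 1 ∈ R := (hmem 1).2 (by omega)
  have hm : 1 ≤ m := by
    obtain ⟨z, l, rfl, _⟩ := hhead
    have := (hmc z).1 (by simp)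
    omega
  -- the family
  set G : List ℕ → Prop := fun h => h.Perm (List.range m) ∧
    ∀ u v, rg β (Bfr R (u + 2) 1) (Bfr R (v + 2) 1) → Bfr c u v → Bfr h u v with hG
  have hGc : G c := ⟨hc, fun _ _ _ h => h⟩
  -- link
  have hlink : ∀ h X, G h → RR β (Bw R (Bk X c)) (Bw R (Bk X h)) := by
    intro h X hh
    have hhn : h.Nodup := hh.1.nodup_iff.2 List.nodup_range
    refine hTrc (fun u v => ¬ rg β (Bfr R (u + 2) 1) (Bfr R (v + 2) 1))
      (fun a b => RR β (Bw R (Bk X a)) (Bw R (Bk X b))) c h (fun a => RR.refl _)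
      (fun a b d h1 h2 => rrt h1 h2) ?_ hcn (hh.1.trans hc.symm) ?_
    · intro A C u v hp hr
      have hu : u < m := (hmc u).1 (hp.mem_iff.1 (by simp))
      have hv : v < m := (hmc v).1 (hp.mem_iff.1 (by simp))
      exact swap hCtx hR hu hv hr
    · intro u v h1 h2 hr
      exact bfr_asymm hhn (hh.2 u v hr h1) h2
  -- rigidity
  have hrig : ∀ u < m, ¬ rg β (Bfr R (u + 2) 1) (Bfr R 0 1) → ∀ z,
      rg β (Bfr R (z + 2) 1) (Bfr R 0 1) → z < m → rg β (Bfr R (z + 2) 1) (Bfr R (u + 2) 1) := by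
    intro u hu hnu z hz hzm
    rcases hS2 with h2 | hall
    · have huk : (Bfr R (u + 2) 1 ↔ Bfr R 0 1) := by
        by_contra hne
        apply hnu
        refine ⟨?_, ?_, fun _ _ => h2, fun _ _ => h2⟩
        · intro a b
          exact absurd ⟨fun _ => b, fun _ => a⟩ hne
        · intro a b
          exact absurd ⟨fun h => absurd h a, fun h => absurd h b⟩ hne
      have e := propext huk
      rw [e]
      exact hz
    · exfalso
      apply hnu
      have e1 := propext (hall u hu)
      have e2 := propext (hall z hzm)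
      rw [e1]
      rw [e2] at hz
      exact hz
  -- the closure
  have hcl : ∀ h X w', G h → (X = [0, 3] ∨ X = [3, 0]) → RR β (Ew R h X) w' →
      ∃ h', G h' ∧ w' = Ew R h' X := by
    intro h X w' hh hX hw
    rw [ew_eq] at hw
    have hhn : h.Nodup := hh.1.nodup_iff.2 List.nodup_range
    have hmh : ∀ r, r ∈ h ↔ r < m := fun r => by rw [hh.1.mem_iff, List.mem_range]
    obtain ⟨B', hB', rfl, hperm⟩ := blk_perm hDec hKp2 hI2 hI3 hR hh.1 hX hw
    have hp1 : (B' 1).Perm (0 :: (zs h ++ [3])) := by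
      have := hperm 1 h1R
      unfold Bk at this
      rw [if_neg (by norm_num), if_pos rfl] at this
      exact this
    have hn1 : (B' 1).Nodup := hp1.nodup_iff.2 (bk1_nodup hhn)
    have hB1 : Bk X h 1 = 0 :: (zs h ++ [3]) := by
      unfold Bk
      rw [if_neg (by norm_num), if_pos rfl]
    have cB : ∀ a q, q ∈ R → (B' q).count a = (Bk X h q).count a :=
      fun a q hq => (List.perm_iff_count.1 (hperm q hq)) a
    have c0 : ∀ q ∈ R, (B' q).count 0 = if q = 1 ∨ q = 0 then 1 else 0 :=
      fun q hq => by rw [cB 0 q hq, cnt0 hX q]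
    have c3 : ∀ q ∈ R, (B' q).count 3 = if q = 1 ∨ q = 0 then 1 else 0 :=
      fun q hq => by rw [cB 3 q hq, cnt3 hX q]
    have cz : ∀ e < m, ∀ q ∈ R, (B' q).count (3 * e + 1) = if q = 1 ∨ q = e + 2 then 1 else 0 :=
      fun e he q hq => by rw [cB _ q hq, cntz hX hhn ((hmh e).2 he) q]
    -- orders
    have ozz : ∀ u < m, ∀ v < m, rg β (Bfr R (u + 2) 1) (Bfr R (v + 2) 1) → Bfr h u v →
        Bfr (B' 1) (3 * u + 1) (3 * v + 1) := by
      intro u hu v hv hr hb
      have huv : u ≠ v := by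
        rintro rfl
        exact bfr_irrefl hhn hb
      refine hOrd β hI3 R (Bk X h) B' hRn (fun r _ => sfr_bk hX r) (fun r _ => hB' r) hw 1
        (u + 2) (v + 2) (3 * u + 1) (3 * v + 1) h1R ((hmem _).2 (by omega))
        ((hmem _).2 (by omega)) (by omega) (by omega) (by omega) (by omega) (by omega)
        (by omega) (fun q _ => cntz hX hhn ((hmh u).2 hu) q)
        (fun q _ => cntz hX hhn ((hmh v).2 hv) q) (cz u hu) (cz v hv) hr ?_
      rw [hB1]
      exact bfr_zs hb
    have o0z : ∀ u < m, rg β (Bfr R (u + 2) 1) (Bfr R 0 1) → Bfr (B' 1) 0 (3 * u + 1) := by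
      intro u hu hr
      refine hOrd β hI3 R (Bk X h) B' hRn (fun r _ => sfr_bk hX r) (fun r _ => hB' r) hw 1
        0 (u + 2) 0 (3 * u + 1) h1R h0R
        ((hmem _).2 (by omega)) (by omega) (by omega) (by omega) (by omega) (by omega)
        (by omega) (fun q _ => cnt0 hX q)
        (fun q _ => cntz hX hhn ((hmh u).2 hu) q) c0 (cz u hu) (rg_symm hr) ?_
      rw [hB1]
      refine bfr_head ?_
      rw [List.mem_append]
      exact Or.inl (mem_zs.2 ⟨u, (hmh u).2 hu, rfl⟩)
    have oz3 : ∀ u < m, rg β (Bfr R (u + 2) 1) (Bfr R 0 1) → Bfr (B' 1) (3 * u + 1) 3 := by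
      intro u hu hr
      refine hOrd β hI3 R (Bk X h) B' hRn (fun r _ => sfr_bk hX r) (fun r _ => hB' r) hw 1
        (u + 2) 0 (3 * u + 1) 3 h1R ((hmem _).2 (by omega)) h0R
        (by omega) (by omega) (by omega) (by omega) (by omega)
        (by omega) (fun q _ => cntz hX hhn ((hmh u).2 hu) q) (fun q _ => cnt3 hX q)
        (cz u hu) c3 hr ?_
      rw [hB1]
      have : Bfr ((0 :: zs h) ++ [3]) (3 * u + 1) 3 := by
        refine bfr_last ?_
        rw [List.mem_cons]
        exact Or.inr (mem_zs.2 ⟨u, (hmh u).2 hu, rfl⟩)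
      exact this
    have a0 : ∀ u < m, Bfr (B' 1) 0 (3 * u + 1) := by
      intro u hu
      by_cases hr : rg β (Bfr R (u + 2) 1) (Bfr R 0 1)
      · exact o0z u hu hr
      · obtain ⟨z, l, hcz, hz⟩ := hhead
        have hzm : z < m := (hmc z).1 (by rw [hcz]; simp)
        have hrr := hrig u hu hr z hz hzm
        have huz : u ≠ z := by
          rintro rfl
          exact hr hz
        have hul : u ∈ l := by
          have := (hmc u).2 hu
          rw [hcz, List.mem_cons] at this
          exact this.resolve_left huz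
        have hb : Bfr c z u := by
          rw [hcz]
          exact bfr_head hul
        exact bfr_trans hn1 (o0z z hzm hz) (ozz z hzm u hu hrr (hh.2 z u hrr hb))
    have a3 : ∀ u < m, Bfr (B' 1) (3 * u + 1) 3 := by
      intro u hu
      by_cases hr : rg β (Bfr R (u + 2) 1) (Bfr R 0 1)
      · exact oz3 u hu hr
      · obtain ⟨z, l, hcz, hz⟩ := hlast
        have hzm : z < m := (hmc z).1 (by rw [hcz]; simp)
        have hrr := hrig u hu hr z hz hzm
        have huz : u ≠ z := by
          rintro rfl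
          exact hr hz
        have hul : u ∈ l := by
          have := (hmc u).2 hu
          rw [hcz, List.mem_append, List.mem_singleton] at this
          exact this.resolve_right huz
        have hb : Bfr c u z := by
          rw [hcz]
          exact bfr_last hul
        exact bfr_trans hn1 (ozz u hu z hzm (rg_symm hrr) (hh.2 u z (rg_symm hrr) hb))
          (oz3 z hzm hz)
    have a03 : Bfr (B' 1) 0 3 := bfr_trans hn1 (a0 0 hm) (a3 0 hm)
    obtain ⟨h', hp', hB'1⟩ := shape hhn hp1 (fun u hu => a0 u ((hmh u).1 hu))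
      (fun u hu => a3 u ((hmh u).1 hu)) a03
    have hGh' : G h' := by
      refine ⟨hp'.trans hh.1, ?_⟩
      intro u v hr hb
      have hbh := hh.2 u v hr hb
      have hu : u < m := (hmc u).1 ((bfr_iff.1 hb).subset (by simp))
      have hv : v < m := (hmc v).1 ((bfr_iff.1 hb).subset (by simp))
      have h1 := ozz u hu v hv hr hbh
      rw [hB'1] at h1
      exact bfr_zs' h1
    -- the block 0
    have hX' : B' 0 = [0, 3] ∨ B' 0 = [3, 0] := by
      have h1 : (B' 0).Perm [0, 3] := by
        have h2 := hperm 0 h0R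
        have h3 : Bk X h 0 = X := rfl
        rw [h3] at h2
        rcases hX with rfl | rfl
        · exact h2
        · exact h2.trans (List.Perm.swap 0 3 [])
      have h4 : (B' 0).length = 2 := h1.length_eq
      have h5 : 0 ∈ B' 0 := h1.mem_iff.2 (by simp)
      have h6 : 3 ∈ B' 0 := h1.mem_iff.2 (by simp)
      match hB0 : B' 0, h4, h5, h6 with
      | [a, b], _, h5, h6 =>
        simp only [List.mem_cons, List.not_mem_nil, or_false] at h5 h6
        rcases h5 with h5 | h5 <;> rcases h6 with h6 | h6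
        · omega
        · left; rw [← h5, ← h6]
        · right; rw [← h5, ← h6]
        · omega
    have hword : Bw R B' = Bw R (Bk (B' 0) h') := by
      refine bw_congr ?_
      intro r hr
      by_cases h0 : r = 0
      · subst h0; rfl
      · by_cases h1 : r = 1
        · subst h1
          rw [hB'1]
          rfl
        · have h2 := hperm r hr
          unfold Bk at h2
          rw [if_neg h0, if_neg h1, List.perm_singleton] at h2
          rw [h2]
          unfold Bk
          rw [if_neg h0, if_neg h1]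
    by_cases hXX : B' 0 = X
    · refine ⟨h', hGh', ?_⟩
      rw [hword, hXX]
      rfl
    · exfalso
      apply hneg
      have h1 : RR β (Bw R (Bk X c)) (Bw R (Bk (B' 0) c)) := by
        refine rrt (hlink h X hh) (rrt ?_ (hlink h' (B' 0) hGh').symm)
        rw [← hword]
        exact hw
      rw [ew_eq, ew_eq]
      rcases hX with hX | hX <;> rcases hX' with hX' | hX'
      · exact absurd (hX'.trans hX.symm) hXX
      · rw [hX, hX'] at h1
        exact h1
      · rw [hX, hX'] at h1
        exact h1.symm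
      · exact absurd (hX'.trans hX.symm) hXX
  exact hPef β hMod hI2 hI3 m R G c hm hR ⟨fun h hh => hh.1, hcl⟩ hGc

end Pool.Agent.MVK.C28
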