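import Pool.Agent.MVK.Stmts
import Pool.Agent.Helper48_MVD.PWS

/-!
Row PWS of block K (copy of the last theorem of Helper48_MVD/PWS).
-/

namespace Pool.Agent.MVK.H20

open Pool.Agent.Helper14_MV Pool.Agent.Helper2_MV Pool.Agent.MVD Pool.Agent.MVD.H48

theorem pws : Pool.Agent.MVK.PwsStmt := by
  intro β _ _ P Q m hm _ hH _ g
  refine ⟨Lg m g, rfl, lg_perm m g, ?_⟩
  intro j k hk
  have e0 : (Lg m g).flatMap (pj (g j).val k) =
      (if (0 : Fin 4) = j then [0] else []) ++ (if 0 = k then zs (List.range m) else []) ++
      (if (1 : Fin 4) = j then [0] else []) ++ (if 1 = k then zs (List.range m) else []) ++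
      ((if (0 : Fin 4) = j then [0] else []) ++ (if (2 : Fin 4) = j then [0] else [])) ++
      (if 2 = k then zs (List.range m) else []) ++
      ((if (1 : Fin 4) = j then [0] else []) ++ (if (3 : Fin 4) = j then [0] else [])) ++
      (if 3 = k then zs (List.range m) else []) ++
      (if (2 : Fin 4) = j then [0] else []) ++ (if 4 = k then zs (List.range m) else []) ++
      (if (3 : Fin 4) = j then [0] else []) := by
    unfold Lg
    simp only [List.flatMap_append, List.flatMap_cons, List.flatMap_nil, List.append_nil, y_pj,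
      cc_pj m _ k 0 (by norm_num), cc_pj m _ k 1 (by norm_num), cc_pj m _ k 2 (by norm_num),
      cc_pj m _ k 3 (by norm_num), cc_pj m _ k 4 (by norm_num)]
  unfold Inc
  rw [e0]
  constructor
  · intro h
    by_contra hcon
    refine not_inc hm hH (L := _) ?_ h
    fin_cases j <;> interval_cases k <;> simp at hcon ⊢
  · intro h
    have e1 : ∀ L, L = 0 :: (zs (List.range m) ++ [0]) → RR β (Wm P Q L) (bw P Q m) := by
      rintro L rfl
      exact RR.refl _
    apply e1
    fin_cases j <;> interval_cases k <;> simp at h ⊢

end Pool.Agent.MVK.H20
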