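import Pool.Agent.Helper11_MVD.Div
import Pool.Agent.Helper20_MVK.KP2
import Pool.Agent.Helper20_MVK.SHP
import Pool.Agent.Helper20_MVK.FCT
import Pool.Agent.Helper20_MVK.KEY
import Pool.Agent.Helper20_MVK.PWS
import Pool.Agent.Helper20_MVK.PN2
import Pool.Agent.Helper20_MVK.KPF
import Pool.Agent.Helper20_MVK.PEF
import Pool.Agent.Helper20_MVK.PRP
import Pool.Agent.Helper20_MVK.FFC
import Pool.Agent.Helper20_MVK.FFL
import Pool.Agent.Helper20_MVK.FFR
import Pool.Agent.Helper31_MVK.ABS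
import Pool.Agent.Helper80_MVK.IBW
import Pool.Agent.Helper76_MVK.SHK
import Pool.Agent.Helper45_MVK.KGP
import Pool.Agent.Helper26_MVK.KS1
import Pool.Agent.Helper8_MVK.KB1
import Pool.Agent.Helper65_MVK.KB2
import Pool.Agent.Helper23_MVK.KM1
import Pool.Agent.Helper98_MVK.KM
import Pool.Agent.Helper50_MVK.GTH
import Pool.Agent.Helper49_MVK.F1X
import Pool.Agent.Helper60_MVK.KAX

/-!
# The class division for central squares and cubes, without hypotheses

Composition of the rows of block K (problem MP_23468a_al).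
-/

namespace Pool.Agent.MVK.H20

open Pool.Agent.Helper14_MV Pool.Agent.Helper2_MV

theorem hShp : ShpStmt := shp MVD.H11.hDec kp2
theorem hKey : KeyStmt := key MVD.H66.fac fct
theorem hPn2 : Pn2Stmt := pn2 hShp pws hKey
theorem hKpf : KpfStmt := C23.kpf MVD.H11.hDec kp2 MVD.H21.uni
theorem hPef : PefStmt := C31.pef hKpf MVD.H11.hStf MVD.H21.uni
theorem hPrp : PrpStmt := C28.prp hPef MVD.H11.hDec kp2 MVD.H62.ord MVD.H6.trc MVD.H27.ctx
theorem hFfc : FfcStmt := C38.ffc hPrp MVD.H97.ins MVD.H27.ctx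
theorem hFfl : FflStmt := C91.ffl hPrp MVD.H97.ins MVD.H27.ctx
theorem hFfr : FfrStmt := C65.ffr hPrp MVD.H97.ins MVD.H27.ctx
theorem hShk : ShkStmt := H76.shk MVD.H11.hDec kp2
theorem hKgp : KgpStmt := H45.kgp MVD.H10.inw H31.abs
theorem hKs1 : Ks1Stmt := H26.ks1 H31.abs hKgp
theorem hKb1 : Kb1Stmt := H8.kb1 H31.abs H80.ibw
theorem hKb2 : Kb2Stmt := H65.kb2 H31.abs H80.ibw
theorem hKm1 : Km1Stmt := H23.km1 H31.abs hPn2 hShk
theorem hKm : KmStmt := H98.km H31.abs hPn2 hShk hKs1 hKb1 hKb2 hKm1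
theorem hGth : GthStmt := H50.gth H31.abs hKgp hKm
theorem hF1x : F1xStmt := H49.f1x hGth

/-- **The class division for central squares and cubes.**  If `xyx` is an isoterm, `x² t ≈ t x²` and
`x³ t ≈ t x³` hold and the lattice of the fully invariant congruences above `β` is modular, then `β` is
in one of the five classes. -/
theorem kax : KaxStmt := H60.kax MVD.H81.mir hFfc hFfl hFfr hF1x

end Pool.Agent.MVK.H20
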